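import Pool.Agent.Lib.MP_240c17_al.Semi.Spec

/-!
# Identities and extension of scalars over infinite fields (B1)
-/

set_option autoImplicit false

namespace Pool.Agent.Lib.MP_240c17_al.Semi

universe u v

open Pool.Agent.Lib.MP_240c17_al Pool.Agent.Lib.MP_240c17_al.Two Pool.Agent.Lib.MP_240c17_al.Tor

namespace ExtAux

section

variable {σ : Type u} {S : Type u} [Field S] {A : Type u} [LieRing A] {T : Type u} [LieRing T]
  [LieAlgebra S T]

/-- the value of a monomial -/
noncomputable def mon (c : σ → S) (m : σ →₀ ℕ) : S := m.prod fun i n => c i ^ n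

theorem mon_add (c : σ → S) (m m' : σ →₀ ℕ) : mon c (m + m') = mon c m * mon c m' := by
  classical
  unfold mon
  exact Finsupp.prod_add_index' (fun i => pow_zero _) (fun i n n' => pow_add _ _ _)

theorem mon_single (c : σ → S) (i : σ) : mon c (Finsupp.single i 1) = c i := by
  unfold mon
  exact (Finsupp.prod_single_index (h := fun i n => c i ^ n) (pow_zero _)).trans (pow_one _)

/-- the value of a polynomial with coefficients in `A` -/
noncomputable def E (c : σ → S) (φ : A →+ T) (q : (σ →₀ ℕ) →₀ A) : T :=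
  q.sum fun m a => mon c m • φ a

theorem E_zero (c : σ → S) (φ : A →+ T) : E c φ 0 = 0 := Finsupp.sum_zero_index

theorem E_add (c : σ → S) (φ : A →+ T) (q q' : (σ →₀ ℕ) →₀ A) :
    E c φ (q + q') = E c φ q + E c φ q' := by
  classical
  unfold E
  exact Finsupp.sum_add_index' (fun m => by rw [map_zero, smul_zero])
    (fun m a b => by rw [map_add, smul_add])

theorem E_single (c : σ → S) (φ : A →+ T) (m : σ →₀ ℕ) (a : A) :
    E c φ (Finsupp.single m a) = mon c m • φ a := by
  unfold E
  exact Finsupp.sum_single_index (by rw [map_zero, smul_zero])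

theorem E_sum {ι : Type u} (c : σ → S) (φ : A →+ T) (s : Finset ι) (q : ι → (σ →₀ ℕ) →₀ A) :
    E c φ (∑ i ∈ s, q i) = ∑ i ∈ s, E c φ (q i) := by
  classical
  induction s using Finset.induction_on with
  | empty => rw [Finset.sum_empty, Finset.sum_empty, E_zero]
  | insert i s hi ih => rw [Finset.sum_insert hi, Finset.sum_insert hi, E_add, ih]

theorem E_smul {k : Type u} [Field k] [Algebra k S] [LieAlgebra k A] [Module k T]
    [IsScalarTower k S T] (c : σ → S) (φ : A →+ T) (hφ : ∀ (t : k) a, φ (t • a) = t • φ a) (t : k)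
    (q : (σ →₀ ℕ) →₀ A) : E c φ (t • q) = t • E c φ q := by
  induction q using Finsupp.induction_linear with
  | zero => rw [smul_zero, E_zero, smul_zero]
  | add q q' h h' => rw [smul_add, E_add, h, h', E_add, smul_add]
  | single m a =>
    rw [Finsupp.smul_single, E_single, E_single, hφ, ← algebraMap_smul S t (φ a),
      ← algebraMap_smul S t (mon c m • φ a), smul_smul, smul_smul, mul_comm]

/-- the bracket of two polynomials with coefficients in `A` -/
noncomputable def br (q q' : (σ →₀ ℕ) →₀ A) : (σ →₀ ℕ) →₀ A :=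
  q.sum fun m a => q'.sum fun m' a' => Finsupp.single (m + m') ⁅a, a'⁆

theorem br_add_left (q₁ q₂ q' : (σ →₀ ℕ) →₀ A) : br (q₁ + q₂) q' = br q₁ q' + br q₂ q' := by
  classical
  unfold br
  refine Finsupp.sum_add_index' (fun m => ?_) (fun m a b => ?_)
  · simp only [zero_lie, Finsupp.single_zero]
    exact Finsupp.sum_fun_zero q'
  · simp only [add_lie, Finsupp.single_add]
    exact Finsupp.sum_add

theorem br_zero_left (q' : (σ →₀ ℕ) →₀ A) : br 0 q' = 0 := Finsupp.sum_zero_index

theorem br_single_left (m : σ →₀ ℕ) (a : A) (q' : (σ →₀ ℕ) →₀ A) :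
    br (Finsupp.single m a) q' = q'.sum fun m' a' => Finsupp.single (m + m') ⁅a, a'⁆ := by
  unfold br
  refine Finsupp.sum_single_index ?_
  simp only [zero_lie, Finsupp.single_zero]
  exact Finsupp.sum_fun_zero q'

theorem br_single_add (m : σ →₀ ℕ) (a : A) (q₁ q₂ : (σ →₀ ℕ) →₀ A) :
    br (Finsupp.single m a) (q₁ + q₂) = br (Finsupp.single m a) q₁ + br (Finsupp.single m a) q₂ := by
  classical
  rw [br_single_left, br_single_left, br_single_left]
  exact Finsupp.sum_add_index' (fun m => by rw [lie_zero, Finsupp.single_zero])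
    (fun m a b => by rw [lie_add, Finsupp.single_add])

theorem br_single_single (m m' : σ →₀ ℕ) (a a' : A) :
    br (Finsupp.single m a) (Finsupp.single m' a') = Finsupp.single (m + m') ⁅a, a'⁆ := by
  rw [br_single_left]
  exact Finsupp.sum_single_index (by rw [lie_zero, Finsupp.single_zero])

theorem E_br (c : σ → S) (φ : A →+ T) (hφ : ∀ a b, φ ⁅a, b⁆ = ⁅φ a, φ b⁆)
    (q q' : (σ →₀ ℕ) →₀ A) : E c φ (br q q') = ⁅E c φ q, E c φ q'⁆ := by
  induction q using Finsupp.induction_linear with
  | zero => rw [br_zero_left, E_zero, zero_lie]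
  | add q₁ q₂ h h' => rw [br_add_left, E_add, h, h', E_add, add_lie]
  | single m a =>
    induction q' using Finsupp.induction_linear with
    | zero =>
      have h0 : br (Finsupp.single m a) (0 : (σ →₀ ℕ) →₀ A) = 0 := by
        rw [br_single_left]
        exact Finsupp.sum_zero_index
      rw [h0, E_zero, lie_zero]
    | add q₁ q₂ h h' => rw [br_single_add, E_add, h, h', E_add, lie_add]
    | single m' a' =>
      rw [br_single_single, E_single, E_single, E_single, mon_add, hφ, smul_lie, lie_smul, smul_smul]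

/-- a polynomial whose values are zero -/
theorem eq_zero {k : Type u} [Field k] [Infinite k] {A : Type u} [LieRing A] [LieAlgebra k A]
    (q : (σ →₀ ℕ) →₀ A) (h : ∀ c : σ → k, E c (AddMonoidHom.id A) q = 0) : q = 0 := by
  classical
  ext m
  rw [Finsupp.zero_apply, ← Module.forall_dual_apply_eq_zero_iff k]
  intro ℓ
  have hp : (q.sum fun m a => MvPolynomial.monomial m (ℓ a)) = (0 : MvPolynomial σ k) := by
    apply MvPolynomial.funext
    intro c
    rw [map_zero, Finsupp.sum, map_sum]
    have h2 := congrArg ℓ (h c)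
    unfold E at h2
    rw [map_zero, Finsupp.sum, map_sum] at h2
    rw [← h2]
    apply Finset.sum_congr rfl
    intro m _
    rw [MvPolynomial.eval_monomial, map_smul, smul_eq_mul, mul_comm]
    rfl
  have h3 := congrArg (MvPolynomial.coeff m) hp
  rw [MvPolynomial.coeff_zero, Finsupp.sum, MvPolynomial.coeff_sum] at h3
  simp only [MvPolynomial.coeff_monomial] at h3
  rw [Finset.sum_ite_eq' q.support m] at h3
  by_cases hm : m ∈ q.support
  · rw [if_pos hm] at h3
    exact h3
  · rw [Finsupp.notMem_support_iff.mp hm, map_zero]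

end

end ExtAux

open ExtAux in
theorem ext_ : ExtProp.{u} := by
  classical
  intro k _ _ K _ _ A _ _ B _ _ _ _ j hj g hg ρ
  have h1 : ∀ i, ∃ c : A →₀ K, (c.sum fun a t => t • j a) = ρ i := by
    intro i
    have h2 : ρ i ∈ Submodule.span K (Set.range j) := by
      rw [hj]
      exact Submodule.mem_top
    exact Finsupp.mem_span_range_iff_exists_finsupp.mp h2
  choose cf hcf using h1
  let σ : Type u := ULift.{u} ℕ × A
  let e : σ → K := fun p => cf p.1.down p.2
  let rc : (σ → k) → ℕ → A := fun c i => ∑ a ∈ (cf i).support, c (⟨i⟩, a) • a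
  let jB : A →+ B := (j : A →ₗ[k] B).toAddMonoidHom
  let S : LieSubalgebra k (FreeLieAlgebra k ℕ) :=
    { carrier := {g | ∃ q : (σ →₀ ℕ) →₀ A,
        (∀ c : σ → k, FreeLieAlgebra.lift k (rc c) g = E c (AddMonoidHom.id A) q) ∧
        FreeLieAlgebra.lift k ρ g = E e jB q}
      add_mem' := by
        rintro g g' ⟨q, h1, h2⟩ ⟨q', h1', h2'⟩
        refine ⟨q + q', fun c => ?_, ?_⟩
        · rw [map_add, h1, h1', E_add]
        · rw [map_add, h2, h2', E_add]
      zero_mem' := ⟨0, fun c => by rw [map_zero, E_zero], by rw [map_zero, E_zero]⟩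
      smul_mem' := by
        rintro t g ⟨q, h1, h2⟩
        refine ⟨t • q, fun c => ?_, ?_⟩
        · rw [map_smul, h1, E_smul (k := k) c _ (fun t a => rfl)]
        · rw [map_smul, h2, E_smul (k := k) e jB (fun t a => map_smul j t a)]
      lie_mem' := by
        rintro g g' ⟨q, h1, h2⟩ ⟨q', h1', h2'⟩
        refine ⟨br q q', fun c => ?_, ?_⟩
        · rw [LieHom.map_lie, h1, h1', E_br c _ (fun a b => rfl)]
        · rw [LieHom.map_lie, h2, h2', E_br e jB (fun a b => LieHom.map_lie j a b)] }
  have hgen : ∀ i, FreeLieAlgebra.of k i ∈ S := by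
    intro i
    refine ⟨∑ a ∈ (cf i).support, Finsupp.single (Finsupp.single ((⟨i⟩, a) : σ) 1) a,
      fun c => ?_, ?_⟩
    · rw [FreeLieAlgebra.lift_of_apply, E_sum]
      apply Finset.sum_congr rfl
      intro a _
      rw [E_single, mon_single]
      rfl
    · rw [FreeLieAlgebra.lift_of_apply, E_sum, ← hcf i, Finsupp.sum]
      apply Finset.sum_congr rfl
      intro a _
      rw [E_single, mon_single]
      rfl
  have hS : g ∈ S := by
    have h2 := lift_mem S (FreeLieAlgebra.of k) hgen g
    have h3 : FreeLieAlgebra.lift k (FreeLieAlgebra.of k) g = g := by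
      have h4 := FreeLieAlgebra.lift_comp_of (LieHom.id : FreeLieAlgebra k ℕ →ₗ⁅k⁆ FreeLieAlgebra k ℕ)
      have h5 := LieHom.congr_fun h4 g
      exact h5
    rwa [h3] at h2
  obtain ⟨q, hq1, hq2⟩ := hS
  have hq0 : q = 0 := by
    apply eq_zero (k := k)
    intro c
    rw [← hq1 c]
    exact hg (rc c)
  rw [hq2, hq0, E_zero]

end Pool.Agent.Lib.MP_240c17_al.Semi
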