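import Pool.Agent.Lib.MP_240c17_al.Semi.Spec

set_option autoImplicit false

namespace Pool.Agent.Lib.MP_240c17_al.Semi

universe u

open Pool.Agent.Lib.MP_240c17_al Pool.Agent.Lib.MP_240c17_al.Two Pool.Agent.Lib.MP_240c17_al.Tor

theorem ident : IdentProp.{u} := by
  intro k _ m co
  refine ⟨∑ i ∈ Finset.range (m + 1), co i •
    ⁅pw k (FreeLieAlgebra.of k (2 : ℕ)) i (FreeLieAlgebra.of k (0 : ℕ)),
      pw k (FreeLieAlgebra.of k (2 : ℕ)) (m - i) (FreeLieAlgebra.of k (1 : ℕ))⁆, ?_⟩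
  intro L _ _
  have key : ∀ ρ : ℕ → L, FreeLieAlgebra.lift k ρ (∑ i ∈ Finset.range (m + 1), co i •
    ⁅pw k (FreeLieAlgebra.of k (2 : ℕ)) i (FreeLieAlgebra.of k (0 : ℕ)),
      pw k (FreeLieAlgebra.of k (2 : ℕ)) (m - i) (FreeLieAlgebra.of k (1 : ℕ))⁆) =
      ∑ i ∈ Finset.range (m + 1), co i • ⁅pw k (ρ 2) i (ρ 0), pw k (ρ 2) (m - i) (ρ 1)⁆ := by
    intro ρ
    rw [map_sum]
    refine Finset.sum_congr rfl fun i _ => ?_
    rw [map_smul, LieHom.map_lie, pw_map, pw_map, FreeLieAlgebra.lift_of_apply,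
      FreeLieAlgebra.lift_of_apply, FreeLieAlgebra.lift_of_apply]
  constructor
  · intro h a b y
    have h1 := h (fun n => if n = 0 then a else if n = 1 then b else y)
    rw [key] at h1
    simpa using h1
  · intro h ρ
    rw [key]
    exact h (ρ 0) (ρ 1) (ρ 2)

end Pool.Agent.Lib.MP_240c17_al.Semi
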