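import Pool.Agent.Lib.MP_240c17_al.Semi.Spec

/-!
# The Killing form after extension of scalars (statement (B3) of `Semi/Spec.lean`)
-/

set_option autoImplicit false

namespace Pool.Agent.Lib.MP_240c17_al.Semi

universe u

open Pool.Agent.Lib.MP_240c17_al Pool.Agent.Lib.MP_240c17_al.Two Pool.Agent.Lib.MP_240c17_al.Tor
open scoped TensorProduct

theorem baseKill : BaseKillProp.{u} := by
  intro k _ _ K _ _ A _ _ _ _
  have h0 : (killingForm k A).Nondegenerate := LieAlgebra.IsKilling.killingForm_nondegenerate k A
  set b := Module.finBasis k A with hb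
  have h1 : (LinearMap.BilinForm.toMatrix b (killingForm k A)).det ≠ 0 :=
    (LinearMap.BilinForm.nondegenerate_iff_det_ne_zero b).mp h0
  have h2 : killingForm K (K ⊗[k] A) = (killingForm k A).baseChange K :=
    LieModule.traceForm_baseChange (R := k) (L := A) (M := A) K
  have h3 : LinearMap.BilinForm.toMatrix (b.baseChange K) (killingForm K (K ⊗[k] A)) =
      (LinearMap.BilinForm.toMatrix b (killingForm k A)).map (algebraMap k K) := by
    ext i j
    rw [Matrix.map_apply, LinearMap.BilinForm.toMatrix_apply, LinearMap.BilinForm.toMatrix_apply, h2,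
      Module.Basis.baseChange_apply, Module.Basis.baseChange_apply,
      LinearMap.BilinForm.baseChange_tmul, mul_one, Algebra.algebraMap_eq_smul_one]
  have h4 : (killingForm K (K ⊗[k] A)).Nondegenerate := by
    rw [LinearMap.BilinForm.nondegenerate_iff_det_ne_zero (b.baseChange K), h3,
      ← RingHom.mapMatrix_apply, ← RingHom.map_det]
    exact fun h => h1 ((map_eq_zero _).mp h)
  refine ⟨?_⟩
  rw [LieSubmodule.eq_bot_iff]
  intro x hx
  rw [LieIdeal.mem_killingCompl] at hx
  have h5 : x ∈ LinearMap.ker (killingForm K (K ⊗[k] A)) := by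
    rw [LinearMap.mem_ker]
    refine LinearMap.ext fun y => ?_
    rw [LinearMap.zero_apply]
    exact (LieModule.traceForm_comm K (K ⊗[k] A) (K ⊗[k] A) x y).trans (hx y (LieSubmodule.mem_top y))
  have h6 : LinearMap.ker (killingForm K (K ⊗[k] A)) = ⊥ :=
    LinearMap.BilinForm.nondegenerate_iff_ker_eq_bot.mp h4
  rwa [h6, Submodule.mem_bot] at h5

end Pool.Agent.Lib.MP_240c17_al.Semi
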