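import Pool.Agent.Lib.MP_240c17_al.Semi.Spec
import Pool.Agent.Lib.MP_240c17_al.Two.RelFree

set_option autoImplicit false

namespace Pool.Agent.Lib.MP_240c17_al.Semi

universe u

open Pool.Agent.Lib.MP_240c17_al Pool.Agent.Lib.MP_240c17_al.Two Pool.Agent.Lib.MP_240c17_al.Tor

theorem ev_ : EvProp.{u} := by
  intro k _ A _ _ n
  have hA : InVariety (idOf k A) A := fun g hg ρ => hg ρ
  choose ev hev using fun ω : Fin n → A => relFree_lift (idOf k A) n hA ω
  refine ⟨ev, hev, fun f hf => ?_⟩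
  obtain ⟨w, rfl⟩ := qMk_surjective (verbalIdeal (idOf k A) n) f
  have h1 : ∀ ω : Fin n → A, FreeLieAlgebra.lift k ω w = 0 := by
    intro ω
    have h2 : (ev ω).comp (qMk (verbalIdeal (idOf k A) n)) = FreeLieAlgebra.lift k ω := by
      apply FreeLieAlgebra.hom_ext
      intro i
      rw [LieHom.comp_apply, hev, FreeLieAlgebra.lift_of_apply]
    rw [← h2, LieHom.comp_apply]
    exact hf ω
  -- the identity
  obtain ⟨g, hg⟩ : ∃ g, g = FreeLieAlgebra.lift k
      (fun i : Fin n => FreeLieAlgebra.of k (i : ℕ)) w := ⟨_, rfl⟩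
  have h3 : ∀ (L : Type u) [LieRing L] [LieAlgebra k L] (ρ : ℕ → L),
      FreeLieAlgebra.lift k ρ g = FreeLieAlgebra.lift k (fun i : Fin n => ρ i) w := by
    intro L _ _ ρ
    rw [hg, ← LieHom.comp_apply]
    have h4 : (FreeLieAlgebra.lift k ρ).comp (FreeLieAlgebra.lift k
        (fun i : Fin n => FreeLieAlgebra.of k (i : ℕ))) =
        FreeLieAlgebra.lift k (fun i : Fin n => ρ i) := by
      apply FreeLieAlgebra.hom_ext
      intro i
      rw [LieHom.comp_apply, FreeLieAlgebra.lift_of_apply, FreeLieAlgebra.lift_of_apply,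
        FreeLieAlgebra.lift_of_apply]
    rw [h4]
  have hid : g ∈ idOf k A := by
    intro ρ
    rw [h3 A ρ]
    exact h1 _
  obtain ⟨ρ, hρ⟩ : ∃ ρ : ℕ → FreeLieAlgebra k (Fin n), ∀ i : Fin n, ρ i = FreeLieAlgebra.of k i := by
    refine ⟨fun i => if h : i < n then FreeLieAlgebra.of k ⟨i, h⟩ else 0, fun i => ?_⟩
    exact dif_pos i.isLt
  have hw : w = FreeLieAlgebra.lift k ρ g := by
    rw [hg, ← LieHom.comp_apply]
    have h4 : (FreeLieAlgebra.lift k ρ).comp (FreeLieAlgebra.lift k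
        (fun i : Fin n => FreeLieAlgebra.of k (i : ℕ))) = LieHom.id := by
      apply FreeLieAlgebra.hom_ext
      intro i
      rw [LieHom.comp_apply, FreeLieAlgebra.lift_of_apply, FreeLieAlgebra.lift_of_apply, hρ]
      rfl
    rw [h4]
    rfl
  rw [qMk_eq_zero]
  exact LieSubmodule.subset_lieSpan ⟨g, hid, ρ, hw⟩

end Pool.Agent.Lib.MP_240c17_al.Semi
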