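import Pool.Agent.Lib.MP_240c17_al.Semi.Spec
import Pool.Agent.Lib.MP_240c17_al.Necessary

/-!
Varieties generated by finite dimensional semisimple Lie algebras in characteristic zero.
-/

set_option autoImplicit false

namespace Pool.Agent.Lib.MP_240c17_al.Semi

universe u

open Pool.Agent.Lib.MP_240c17_al Pool.Agent.Lib.MP_240c17_al.Two Pool.Agent.Lib.MP_240c17_al.Tor
open scoped TensorProduct

/-- A finite dimensional semisimple algebra satisfying a nontrivial identity (I) has the same identities
as `sl₂(k)`. -/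
theorem final_idOf (hExt : ExtProp.{u}) (hIdent : IdentProp.{u}) (hBase : BaseKillProp.{u})
    (hRoot : RootProp.{u}) (hHom : Sl2HomProp.{u}) (hSl2 : Sl2IdProp.{u}) (k : Type u) [Field k]
    [CharZero k] (A : Type u) [LieRing A] [LieAlgebra k A] [FiniteDimensional k A] [Nontrivial A]
    [LieAlgebra.HasTrivialRadical k A] (m : ℕ) (co : ℕ → k) (hne : ∃ i ≤ m, co i ≠ 0)
    (hI : IdI k A m co) : idOf k A = idOf k (sl2 k) := by
  haveI : Infinite k := inferInstance
  let K := AlgebraicClosure k
  let j : A →ₗ⁅k⁆ (K ⊗[k] A) :=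
    { TensorProduct.mk k K A 1 with
      map_lie' := by
        intro x y
        show (1 : K) ⊗ₜ[k] ⁅x, y⁆ = ⁅(1 : K) ⊗ₜ[k] x, (1 : K) ⊗ₜ[k] y⁆
        rw [LieAlgebra.ExtendScalars.bracket_tmul, mul_one] }
  have hj : ∀ x, j x = (1 : K) ⊗ₜ[k] x := fun x => rfl
  have hspan : Submodule.span K (Set.range j) = ⊤ := by
    rw [eq_top_iff]
    intro z _
    induction z using TensorProduct.induction_on with
    | zero => exact Submodule.zero_mem _
    | tmul a x =>
      have h1 : a ⊗ₜ[k] x = a • j x := by
        rw [hj, TensorProduct.smul_tmul', smul_eq_mul, mul_one]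
      rw [h1]
      exact Submodule.smul_mem _ _ (Submodule.subset_span ⟨x, rfl⟩)
    | add z w hz hw => exact Submodule.add_mem _ (hz trivial) (hw trivial)
  have hinj : Function.Injective j := by
    intro x y hxy
    rw [hj, hj] at hxy
    have h1 : Function.Injective (LinearMap.rTensor A (Algebra.linearMap k K)) :=
      Module.Flat.rTensor_preserves_injective_linearMap _ (algebraMap k K).injective
    have h2 : (1 : k) ⊗ₜ[k] x = (1 : k) ⊗ₜ[k] y := by
      apply h1
      simpa using hxy
    have h3 := congrArg (TensorProduct.lid k A) h2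
    simpa using h3
  have hB : idOf k A ⊆ idOf k (K ⊗[k] A) := hExt k K A (K ⊗[k] A) j hspan
  -- the identity (I) over the algebraic closure
  obtain ⟨g, hg⟩ := hIdent k m co
  have hgB : IdI k (K ⊗[k] A) m co := (hg (K ⊗[k] A)).mp (hB ((hg A).mpr hI))
  have hIK : IdI K (K ⊗[k] A) m (fun i => algebraMap k K (co i)) := by
    intro a b y
    have h1 := hgB a b y
    have h2 : ∀ (e : ℕ) (z : K ⊗[k] A), pw K y e z = pw k y e z := by
      intro e z
      induction e with
      | zero => simp
      | succ e ih => rw [pw_succ, pw_succ, ih]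
    simp only [h2]
    rw [← h1]
    refine Finset.sum_congr rfl fun i _ => ?_
    rw [algebraMap_smul]
  haveI : LieAlgebra.IsKilling K (K ⊗[k] A) := hBase k K A
  haveI : CharZero K := charZero_of_injective_algebraMap (algebraMap k K).injective
  obtain ⟨r, h, e, f, hT, hC, hS⟩ := hRoot K (K ⊗[k] A) m (fun i => algebraMap k K (co i)) (by
    obtain ⟨i, hi, h1⟩ := hne
    exact ⟨i, hi, by simpa using h1⟩) hIK
  have h1 : idOf k (sl2 k) ⊆ idOf k (K ⊗[k] A) := hSl2 k K (K ⊗[k] A) r h e f hT hC hS
  apply Set.Subset.antisymm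
  · intro g hg
    have hg' := hB hg
    -- there is a triple
    have hr : 0 < r := by
      by_contra hr
      have hr0 : r = 0 := by omega
      subst hr0
      have h2 : (⊤ : Submodule K (K ⊗[k] A)) = ⊥ := by
        rw [← hS]
        simp
      obtain ⟨x, hx⟩ := exists_ne (0 : A)
      apply hx
      apply hinj
      have h3 : j x ∈ (⊤ : Submodule K (K ⊗[k] A)) := trivial
      rw [h2, Submodule.mem_bot] at h3
      rw [h3, map_zero]
    obtain ⟨φ, _, _, _, _, hφ⟩ := hHom k (K ⊗[k] A) (h ⟨0, hr⟩) (e ⟨0, hr⟩) (f ⟨0, hr⟩) (hT ⟨0, hr⟩)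
    intro ρ
    apply hφ inferInstance
    rw [map_zero]
    have h4 : FreeLieAlgebra.lift k (fun i => φ (ρ i)) = φ.comp (FreeLieAlgebra.lift k ρ) := by
      apply FreeLieAlgebra.hom_ext
      intro i
      simp
    have h5 := hg' (fun i => φ (ρ i))
    rw [h4] at h5
    exact h5
  · intro g hg ρ
    have h5 := h1 hg (fun i => j (ρ i))
    have h4 : FreeLieAlgebra.lift k (fun i => j (ρ i)) = j.comp (FreeLieAlgebra.lift k ρ) := by
      apply FreeLieAlgebra.hom_ext
      intro i
      simp
    rw [h4] at h5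
    apply hinj
    rw [map_zero]
    exact h5

/-- Varieties generated by finite dimensional semisimple Lie algebras. -/
theorem semi_final (hExt : ExtProp.{u}) (hIdent : IdentProp.{u}) (hBase : BaseKillProp.{u})
    (hRoot : RootProp.{u}) (hHom : Sl2HomProp.{u}) (hSl2 : Sl2IdProp.{u})
    (hGood : ∀ (k : Type u) [Field k] [Infinite k], (2 : k) ≠ 0 → Good k (idOf k (sl2 k)))
    (k : Type u) [Field k] [CharZero k] (ι : Type u) [Nonempty ι] (A : ι → Type u)
    [∀ i, LieRing (A i)] [∀ i, LieAlgebra k (A i)] [∀ i, FiniteDimensional k (A i)]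
    [∀ i, Nontrivial (A i)] [∀ i, LieAlgebra.HasTrivialRadical k (A i)] :
    Good k {g | ∀ i, ∀ ρ : ℕ → A i, FreeLieAlgebra.lift k ρ g = 0} ↔
      {g | ∀ i, ∀ ρ : ℕ → A i, FreeLieAlgebra.lift k ρ g = 0} = idOf k (sl2 k) := by
  constructor
  · intro h
    obtain ⟨m, co, hne, hI⟩ := Nec1.necessary k _ h
    have h1 : ∀ i, idOf k (A i) = idOf k (sl2 k) := by
      intro i
      refine final_idOf hExt hIdent hBase hRoot hHom hSl2 k (A i) m co hne ?_
      intro a b y
      have h2 := hI (A i) (fun g hg ρ => hg i ρ) a b y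
      simp only [← pw_iterate (k := k)] at h2
      exact h2
    ext g
    constructor
    · intro hg
      rw [← h1 (Classical.arbitrary ι)]
      exact hg _
    · intro hg i
      have h2 : g ∈ idOf k (A i) := by rw [h1 i]; exact hg
      exact h2
  · intro h
    rw [h]
    exact hGood k two_ne_zero

end Pool.Agent.Lib.MP_240c17_al.Semi
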