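import Pool.Agent.Lib.MP_240c17_al.Semi.Spec

/-!
# Commuting `sl₂` triples which span (C2)
-/

set_option autoImplicit false

namespace Pool.Agent.Lib.MP_240c17_al.Semi

universe u v

open Pool.Agent.Lib.MP_240c17_al Pool.Agent.Lib.MP_240c17_al.Two Pool.Agent.Lib.MP_240c17_al.Tor

namespace RootAux

section

variable {K : Type u} [Field K] [CharZero K] [IsAlgClosed K] {B : Type u} [LieRing B]
  [LieAlgebra K B] [FiniteDimensional K B] [LieAlgebra.IsKilling K B]

/-- commutators with the product of two commuting elements -/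
theorem comm_lie {L : Type u} [LieRing L] {x e f : L} (h1 : ⁅x, e⁆ = 0) (h2 : ⁅x, f⁆ = 0) :
    ⁅x, ⁅e, f⁆⁆ = 0 := by
  rw [leibniz_lie, h1, h2, zero_lie, lie_zero, add_zero]

theorem comm_lie' {L : Type u} [LieRing L] {x e f : L} (h1 : ⁅e, x⁆ = 0) (h2 : ⁅f, x⁆ = 0) :
    ⁅⁅e, f⁆, x⁆ = 0 := by
  rw [lie_lie, h1, h2, lie_zero, lie_zero, sub_zero]

/-- two triples which commute -/
theorem comm_triple {L : Type u} [LieRing L] {h e f h' e' f' : L} (t : IsSl2Triple h e f)
    (t' : IsSl2Triple h' e' f') (h1 : ⁅e, e'⁆ = 0) (h2 : ⁅e, f'⁆ = 0) (h3 : ⁅f, e'⁆ = 0)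
    (h4 : ⁅f, f'⁆ = 0) : ∀ a ∈ ({h, e, f} : Set L), ∀ b ∈ ({h', e', f'} : Set L), ⁅a, b⁆ = 0 := by
  have e1 : ⁅e, h'⁆ = 0 := by
    rw [← t'.lie_e_f]
    exact comm_lie h1 h2
  have e2 : ⁅f, h'⁆ = 0 := by
    rw [← t'.lie_e_f]
    exact comm_lie h3 h4
  have e3 : ⁅h, e'⁆ = 0 := by
    rw [← t.lie_e_f]
    exact comm_lie' h1 h3
  have e4 : ⁅h, f'⁆ = 0 := by
    rw [← t.lie_e_f]
    exact comm_lie' h2 h4
  have e5 : ⁅h, h'⁆ = 0 := by
    rw [← t.lie_e_f]
    exact comm_lie' e1 e2
  intro a ha b hb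
  simp only [Set.mem_insert_iff, Set.mem_singleton_iff] at ha hb
  rcases ha with rfl | rfl | rfl <;> rcases hb with rfl | rfl | rfl <;> assumption

/-- the spanning criterion -/
theorem span_top (H : LieSubalgebra K B) [H.IsCartanSubalgebra] (S : Submodule K B)
    (h1 : ∀ α : LieModule.Weight K H B, α.IsNonZero → ∃ x ∈ S, x ∈ LieAlgebra.rootSpace H α ∧ x ≠ 0)
    (h2 : ∀ α : LieModule.Weight K H B, α.IsNonZero →
      ((LieAlgebra.IsKilling.coroot α : H) : B) ∈ S) : S = ⊤ := by
  have hroot : ∀ α : LieModule.Weight K H B, α.IsNonZero →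
      ∀ x ∈ LieAlgebra.rootSpace H α, x ∈ S := by
    intro α hα x hx
    obtain ⟨y, hyS, hy, hy0⟩ := h1 α hα
    have hf := LieAlgebra.IsKilling.finrank_rootSpace_eq_one α hα
    obtain ⟨c, hc⟩ := (finrank_eq_one_iff_of_nonzero' (⟨y, hy⟩ : LieAlgebra.rootSpace H α)
      (fun h => hy0 (congrArg Subtype.val h))).mp hf ⟨x, hx⟩
    have h3 : c • y = x := congrArg Subtype.val hc
    rw [← h3]
    exact S.smul_mem c hyS
  have hH : ∀ x : H, (x : B) ∈ S := by
    intro x
    have hx : x ∈ ⨆ α : LieModule.Weight K H B, ⨆ (_ : α.IsNonZero),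
        LieAlgebra.corootSpace (α : H → K) := by
      rw [LieAlgebra.IsKilling.biSup_corootSpace_eq_top]
      exact LieSubmodule.mem_top x
    induction hx using LieSubmodule.iSup_induction' with
    | mem α y hy =>
      induction hy using LieSubmodule.iSup_induction' with
      | mem hα y hy =>
        have h3 : y ∈ (LieAlgebra.corootSpace (α : H → K)).toSubmodule := hy
        rw [LieAlgebra.IsKilling.coe_corootSpace_eq_span_singleton,
          Submodule.mem_span_singleton] at h3
        obtain ⟨c, rfl⟩ := h3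
        exact S.smul_mem c (h2 α hα)
      | zero => exact S.zero_mem
      | add y z _ _ hy hz => exact S.add_mem hy hz
    | zero => exact S.zero_mem
    | add y z _ _ hy hz => exact S.add_mem hy hz
  rw [eq_top_iff]
  intro x _
  have hx : x ∈ ⨆ α : LieModule.Weight K H B, LieModule.genWeightSpace B (α : H → K) := by
    rw [LieModule.iSup_genWeightSpace_eq_top']
    exact LieSubmodule.mem_top x
  induction hx using LieSubmodule.iSup_induction' with
  | mem α y hy =>
    by_cases hα : α.IsZero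
    · have h3 : y ∈ LieAlgebra.rootSpace H (0 : H → K) := by
        rw [← hα]
        exact hy
      rw [LieAlgebra.rootSpace_zero_eq] at h3
      exact hH ⟨y, h3⟩
    · exact hroot α hα y hy
  | zero => exact S.zero_mem
  | add y z _ _ hy hz => exact S.add_mem (hy trivial) (hz trivial)

end

end RootAux

open RootAux in
theorem root_ (h1 : RootPairProp.{u}) : RootProp.{u} := by
  classical
  intro K _ _ _ B _ _ _ _ m c hc hI
  obtain ⟨x, hx⟩ := LieAlgebra.exists_isCartanSubalgebra_engel K B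
  set H : LieSubalgebra K B := LieSubalgebra.engel K x with hH
  clear_value H
  have : H.IsCartanSubalgebra := hx
  have hp := h1 K B H m c hc hI
  let _ : Fintype (LieModule.Weight K H B) := Fintype.ofFinite _
  let ι : LieModule.Weight K H B → Fin (Fintype.card (LieModule.Weight K H B)) :=
    Fintype.equivFin _
  have hι : Function.Injective ι := (Fintype.equivFin _).injective
  let R : Type u := {α : LieModule.Weight K H B // α.IsNonZero ∧ ι α < ι (-α)}
  let _ : Fintype R := Fintype.ofFinite _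
  have hR : ∀ α : LieModule.Weight K H B, α.IsNonZero → (∃ β : R, β.1 = α) ∨ ∃ β : R, β.1 = -α := by
    intro α hα
    have hne : α ≠ -α := by
      intro h
      apply hα
      have h2 : ((α : LieModule.Weight K H B) : H → K) = -α := by
        conv_lhs => rw [h]
        exact LieModule.Weight.coe_neg
      exact self_eq_neg.mp h2
    rcases lt_or_gt_of_ne (fun h => hne (hι h)) with h | h
    · exact Or.inl ⟨⟨α, hα, h⟩, rfl⟩
    · refine Or.inr ⟨⟨-α, hα.neg, ?_⟩, rfl⟩
      rw [neg_neg]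
      exact h
  have htr : ∀ α : R, ∃ h e f : B, IsSl2Triple h e f ∧
      e ∈ LieAlgebra.rootSpace H α.1 ∧ f ∈ LieAlgebra.rootSpace H (-α.1) := fun α =>
    LieAlgebra.IsKilling.exists_isSl2Triple_of_weight_isNonZero α.2.1
  choose h e f ht he hf using htr
  have hf' : ∀ α : R, f α ∈ LieAlgebra.rootSpace H ((-α.1 : LieModule.Weight K H B) : H → K) := by
    intro α
    rw [LieModule.Weight.coe_neg]
    exact hf α
  let ε : Fin (Fintype.card R) ≃ R := (Fintype.equivFin R).symm
  refine ⟨Fintype.card R, fun s => h (ε s), fun s => e (ε s), fun s => f (ε s),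
    fun s => ht (ε s), ?_, ?_⟩
  · suffices key : ∀ α β : R, β ≠ α → ∀ a ∈ ({h α, e α, f α} : Set B),
        ∀ b ∈ ({h β, e β, f β} : Set B), ⁅a, b⁆ = 0 from
      fun s s' hs => key (ε s) (ε s') (fun h => hs (ε.injective h).symm)
    intro α β hαβ
    have n1 : β.1 ≠ α.1 := fun h => hαβ (Subtype.ext h)
    have n2 : β.1 ≠ -α.1 := by
      intro h
      have h3 := β.2.2
      rw [h, neg_neg] at h3
      exact absurd h3 (not_lt.mpr α.2.2.le)
    have n3 : -β.1 ≠ α.1 := fun h => n2 (by rw [← h, neg_neg])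
    have n4 : -β.1 ≠ -α.1 := fun h => n1 (neg_injective h)
    refine comm_triple (ht α) (ht β) ?_ ?_ ?_ ?_
    · exact hp α.1 β.1 α.2.1 β.2.1 n1 n2 _ (he α) _ (he β)
    · exact hp α.1 (-β.1) α.2.1 β.2.1.neg n3 n4 _ (he α) _ (hf' β)
    · exact hp (-α.1) β.1 α.2.1.neg β.2.1 n2 (by rw [neg_neg]; exact n1) _ (hf' α) _ (he β)
    · exact hp (-α.1) (-β.1) α.2.1.neg β.2.1.neg n4 (by rw [neg_neg]; exact n3) _ (hf' α) _ (hf' β)
  · have sh : ∀ α : R, h α ∈ Submodule.span K (Set.range (fun s => h (ε s)) ∪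
        Set.range (fun s => e (ε s)) ∪ Set.range (fun s => f (ε s))) := fun α =>
      Submodule.subset_span (Or.inl (Or.inl ⟨ε.symm α, by simp only [Equiv.apply_symm_apply]⟩))
    have se : ∀ α : R, e α ∈ Submodule.span K (Set.range (fun s => h (ε s)) ∪
        Set.range (fun s => e (ε s)) ∪ Set.range (fun s => f (ε s))) := fun α =>
      Submodule.subset_span (Or.inl (Or.inr ⟨ε.symm α, by simp only [Equiv.apply_symm_apply]⟩))
    have sf : ∀ α : R, f α ∈ Submodule.span K (Set.range (fun s => h (ε s)) ∪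
        Set.range (fun s => e (ε s)) ∪ Set.range (fun s => f (ε s))) := fun α =>
      Submodule.subset_span (Or.inr ⟨ε.symm α, by simp only [Equiv.apply_symm_apply]⟩)
    apply span_top H
    · intro α hα
      rcases hR α hα with ⟨β, hβ⟩ | ⟨β, hβ⟩
      · refine ⟨e β, se β, ?_, (ht β).e_ne_zero⟩
        rw [← hβ]
        exact he β
      · refine ⟨f β, sf β, ?_, (ht β).f_ne_zero⟩
        have h3 := hf' β
        rw [hβ, neg_neg] at h3
        exact h3
    · intro α hα
      rcases hR α hα with ⟨β, hβ⟩ | ⟨β, hβ⟩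
      · rw [← hβ, ← (ht β).h_eq_coroot β.2.1 (he β) (hf β)]
        exact sh β
      · have h3 : α = -β.1 := by rw [hβ, neg_neg]
        rw [h3, LieAlgebra.IsKilling.coroot_neg]
        have h4 : ((-LieAlgebra.IsKilling.coroot β.1 : H) : B) =
            -((LieAlgebra.IsKilling.coroot β.1 : H) : B) := rfl
        rw [h4, ← (ht β).h_eq_coroot β.2.1 (he β) (hf β)]
        exact Submodule.neg_mem _ (sh β)

end Pool.Agent.Lib.MP_240c17_al.Semi
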