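import Pool.Agent.Lib.MP_240c17_al.Semi.Root2
import Pool.Agent.Lib.MP_240c17_al.Semi.Root
import Pool.Agent.Lib.MP_240c17_al.Semi.Final
import Pool.Agent.Lib.MP_240c17_al.Q2.Fin
import Pool.Agent.Lib.MP_240c17_al.Q2.Abc.Final

/-!
# A semisimple algebra has the identities of `sl₂`, or its variety contains `N₂A`
-/

set_option autoImplicit false

namespace Pool.Agent.Lib.MP_240c17_al.Semi

universe u

open Pool.Agent.Lib.MP_240c17_al Pool.Agent.Lib.MP_240c17_al.Two Pool.Agent.Lib.MP_240c17_al.Tor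
open scoped TensorProduct

open RootAux in
theorem root2 (K : Type u) [Field K] [CharZero K] [IsAlgClosed K] (B : Type u) [LieRing B]
    [LieAlgebra K B] [FiniteDimensional K B] [LieAlgebra.IsKilling K B]
    (hp : ∀ (H : LieSubalgebra K B) [H.IsCartanSubalgebra] (α β : LieModule.Weight K H B),
      α.IsNonZero → β.IsNonZero → β ≠ α → β ≠ -α →
      ∀ x ∈ LieAlgebra.rootSpace H α, ∀ y ∈ LieAlgebra.rootSpace H β, ⁅x, y⁆ = 0) :
    ∃ (r : ℕ) (h e f : Fin r → B), (∀ s, IsSl2Triple (h s) (e s) (f s)) ∧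
      (∀ s s', s ≠ s' → ∀ a ∈ ({h s, e s, f s} : Set B), ∀ b ∈ ({h s', e s', f s'} : Set B),
        ⁅a, b⁆ = 0) ∧
      Submodule.span K (Set.range h ∪ Set.range e ∪ Set.range f) = ⊤ := by
  classical
  obtain ⟨x, hx⟩ := LieAlgebra.exists_isCartanSubalgebra_engel K B
  set H : LieSubalgebra K B := LieSubalgebra.engel K x with hH
  clear_value H
  have : H.IsCartanSubalgebra := hx
  have hp := hp H
  let _ : Fintype (LieModule.Weight K H B) := Fintype.ofFinite _
  let ι : LieModule.Weight K H B → Fin (Fintype.card (LieModule.Weight K H B)) :=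
    Fintype.equivFin _
  have hι : Function.Injective ι := (Fintype.equivFin _).injective
  let R : Type u := {α : LieModule.Weight K H B // α.IsNonZero ∧ ι α < ι (-α)}
  let _ : Fintype R := Fintype.ofFinite _
  have hR : ∀ α : LieModule.Weight K H B, α.IsNonZero → (∃ β : R, β.1 = α) ∨ ∃ β : R, β.1 = -α := by
    intro α hα
    have hne : α ≠ -α := by
      intro h
      apply hα
      have h2 : ((α : LieModule.Weight K H B) : H → K) = -α := by
        conv_lhs => rw [h]
        exact LieModule.Weight.coe_neg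
      exact self_eq_neg.mp h2
    rcases lt_or_gt_of_ne (fun h => hne (hι h)) with h | h
    · exact Or.inl ⟨⟨α, hα, h⟩, rfl⟩
    · refine Or.inr ⟨⟨-α, hα.neg, ?_⟩, rfl⟩
      rw [neg_neg]
      exact h
  have htr : ∀ α : R, ∃ h e f : B, IsSl2Triple h e f ∧
      e ∈ LieAlgebra.rootSpace H α.1 ∧ f ∈ LieAlgebra.rootSpace H (-α.1) := fun α =>
    LieAlgebra.IsKilling.exists_isSl2Triple_of_weight_isNonZero α.2.1
  choose h e f ht he hf using htr
  have hf' : ∀ α : R, f α ∈ LieAlgebra.rootSpace H ((-α.1 : LieModule.Weight K H B) : H → K) := by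
    intro α
    rw [LieModule.Weight.coe_neg]
    exact hf α
  let ε : Fin (Fintype.card R) ≃ R := (Fintype.equivFin R).symm
  refine ⟨Fintype.card R, fun s => h (ε s), fun s => e (ε s), fun s => f (ε s),
    fun s => ht (ε s), ?_, ?_⟩
  · suffices key : ∀ α β : R, β ≠ α → ∀ a ∈ ({h α, e α, f α} : Set B),
        ∀ b ∈ ({h β, e β, f β} : Set B), ⁅a, b⁆ = 0 from
      fun s s' hs => key (ε s) (ε s') (fun h => hs (ε.injective h).symm)
    intro α β hαβ
    have n1 : β.1 ≠ α.1 := fun h => hαβ (Subtype.ext h)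
    have n2 : β.1 ≠ -α.1 := by
      intro h
      have h3 := β.2.2
      rw [h, neg_neg] at h3
      exact absurd h3 (not_lt.mpr α.2.2.le)
    have n3 : -β.1 ≠ α.1 := fun h => n2 (by rw [← h, neg_neg])
    have n4 : -β.1 ≠ -α.1 := fun h => n1 (neg_injective h)
    refine comm_triple (ht α) (ht β) ?_ ?_ ?_ ?_
    · exact hp α.1 β.1 α.2.1 β.2.1 n1 n2 _ (he α) _ (he β)
    · exact hp α.1 (-β.1) α.2.1 β.2.1.neg n3 n4 _ (he α) _ (hf' β)
    · exact hp (-α.1) β.1 α.2.1.neg β.2.1 n2 (by rw [neg_neg]; exact n1) _ (hf' α) _ (he β)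
    · exact hp (-α.1) (-β.1) α.2.1.neg β.2.1.neg n4 (by rw [neg_neg]; exact n3) _ (hf' α) _ (hf' β)
  · have sh : ∀ α : R, h α ∈ Submodule.span K (Set.range (fun s => h (ε s)) ∪
        Set.range (fun s => e (ε s)) ∪ Set.range (fun s => f (ε s))) := fun α =>
      Submodule.subset_span (Or.inl (Or.inl ⟨ε.symm α, by simp only [Equiv.apply_symm_apply]⟩))
    have se : ∀ α : R, e α ∈ Submodule.span K (Set.range (fun s => h (ε s)) ∪
        Set.range (fun s => e (ε s)) ∪ Set.range (fun s => f (ε s))) := fun α =>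
      Submodule.subset_span (Or.inl (Or.inr ⟨ε.symm α, by simp only [Equiv.apply_symm_apply]⟩))
    have sf : ∀ α : R, f α ∈ Submodule.span K (Set.range (fun s => h (ε s)) ∪
        Set.range (fun s => e (ε s)) ∪ Set.range (fun s => f (ε s))) := fun α =>
      Submodule.subset_span (Or.inr ⟨ε.symm α, by simp only [Equiv.apply_symm_apply]⟩)
    apply span_top H
    · intro α hα
      rcases hR α hα with ⟨β, hβ⟩ | ⟨β, hβ⟩
      · refine ⟨e β, se β, ?_, (ht β).e_ne_zero⟩
        rw [← hβ]
        exact he β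
      · refine ⟨f β, sf β, ?_, (ht β).f_ne_zero⟩
        have h3 := hf' β
        rw [hβ, neg_neg] at h3
        exact h3
    · intro α hα
      rcases hR α hα with ⟨β, hβ⟩ | ⟨β, hβ⟩
      · rw [← hβ, ← (ht β).h_eq_coroot β.2.1 (he β) (hf β)]
        exact sh β
      · have h3 : α = -β.1 := by rw [hβ, neg_neg]
        rw [h3, LieAlgebra.IsKilling.coroot_neg]
        have h4 : ((-LieAlgebra.IsKilling.coroot β.1 : H) : B) =
            -((LieAlgebra.IsKilling.coroot β.1 : H) : B) := rfl
        rw [h4, ← (ht β).h_eq_coroot β.2.1 (he β) (hf β)]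
        exact Submodule.neg_mem _ (sh β)

/-- A finite dimensional semisimple algebra has the identities of `sl₂(k)`, or its identities hold in
`k² ⋉ Heis₃`. -/
theorem semi_dich (hExt : ExtProp.{u}) (hBase : BaseKillProp.{u}) (hHom : Sl2HomProp.{u})
    (hSl2 : Sl2IdProp.{u}) (k : Type u) [Field k]
    [CharZero k] (A : Type u) [LieRing A] [LieAlgebra k A] [FiniteDimensional k A] [Nontrivial A]
    [LieAlgebra.HasTrivialRadical k A] :
    idOf k A = idOf k (sl2 k) ∨ idOf k A ⊆ idOf k (Q2.H2 k) := by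
  have : Infinite k := inferInstance
  let K := AlgebraicClosure k
  let j : A →ₗ⁅k⁆ (K ⊗[k] A) :=
    { TensorProduct.mk k K A 1 with
      map_lie' := by
        intro x y
        show (1 : K) ⊗ₜ[k] ⁅x, y⁆ = ⁅(1 : K) ⊗ₜ[k] x, (1 : K) ⊗ₜ[k] y⁆
        rw [LieAlgebra.ExtendScalars.bracket_tmul, mul_one] }
  have hj : ∀ x, j x = (1 : K) ⊗ₜ[k] x := fun x => rfl
  have hspan : Submodule.span K (Set.range j) = ⊤ := by
    rw [eq_top_iff]
    intro z _
    induction z using TensorProduct.induction_on with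
    | zero => exact Submodule.zero_mem _
    | tmul a x =>
      have h1 : a ⊗ₜ[k] x = a • j x := by
        rw [hj, TensorProduct.smul_tmul', smul_eq_mul, mul_one]
      rw [h1]
      exact Submodule.smul_mem _ _ (Submodule.subset_span ⟨x, rfl⟩)
    | add z w hz hw => exact Submodule.add_mem _ (hz trivial) (hw trivial)
  have hinj : Function.Injective j := by
    intro x y hxy
    rw [hj, hj] at hxy
    have h1 : Function.Injective (LinearMap.rTensor A (Algebra.linearMap k K)) :=
      Module.Flat.rTensor_preserves_injective_linearMap _ (algebraMap k K).injective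
    have h2 : (1 : k) ⊗ₜ[k] x = (1 : k) ⊗ₜ[k] y := by
      apply h1
      simpa using hxy
    have h3 := congrArg (TensorProduct.lid k A) h2
    simpa using h3
  have hB : idOf k A ⊆ idOf k (K ⊗[k] A) := hExt k K A (K ⊗[k] A) j hspan
  have : LieAlgebra.IsKilling K (K ⊗[k] A) := hBase k K A
  have : CharZero K := charZero_of_injective_algebraMap (algebraMap k K).injective
  by_cases hp : ∀ (H : LieSubalgebra K (K ⊗[k] A)) [H.IsCartanSubalgebra]
      (α β : LieModule.Weight K H (K ⊗[k] A)),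
      α.IsNonZero → β.IsNonZero → β ≠ α → β ≠ -α →
      ∀ x ∈ LieAlgebra.rootSpace H α, ∀ y ∈ LieAlgebra.rootSpace H β, ⁅x, y⁆ = 0
  · left
    obtain ⟨r, h, e, f, hT, hC, hS⟩ := root2 K (K ⊗[k] A) hp
    have h1 : idOf k (sl2 k) ⊆ idOf k (K ⊗[k] A) := hSl2 k K (K ⊗[k] A) r h e f hT hC hS
    apply Set.Subset.antisymm
    · intro g hg
      have hg' := hB hg
      have hr : 0 < r := by
        by_contra hr
        have hr0 : r = 0 := by omega
        subst hr0
        have h2 : (⊤ : Submodule K (K ⊗[k] A)) = ⊥ := by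
          rw [← hS]
          simp
        obtain ⟨x, hx⟩ := exists_ne (0 : A)
        apply hx
        apply hinj
        have h3 : j x ∈ (⊤ : Submodule K (K ⊗[k] A)) := trivial
        rw [h2, Submodule.mem_bot] at h3
        rw [h3, map_zero]
      obtain ⟨φ, _, _, _, _, hφ⟩ := hHom k (K ⊗[k] A) (h ⟨0, hr⟩) (e ⟨0, hr⟩) (f ⟨0, hr⟩) (hT ⟨0, hr⟩)
      intro ρ
      apply hφ inferInstance
      rw [map_zero]
      have h4 : FreeLieAlgebra.lift k (fun i => φ (ρ i)) = φ.comp (FreeLieAlgebra.lift k ρ) := by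
        apply FreeLieAlgebra.hom_ext
        intro i
        simp
      have h5 := hg' (fun i => φ (ρ i))
      rw [h4] at h5
      exact h5
    · intro g hg ρ
      have h5 := h1 hg (fun i => j (ρ i))
      have h4 : FreeLieAlgebra.lift k (fun i => j (ρ i)) = j.comp (FreeLieAlgebra.lift k ρ) := by
        apply FreeLieAlgebra.hom_ext
        intro i
        simp
      rw [h4] at h5
      apply hinj
      rw [map_zero]
      exact h5
  · right
    push Not at hp
    obtain ⟨H, _, α, β, hα, hβ, h1, h2, x, hx, y, hy, hxy⟩ := hp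
    obtain ⟨g1, g2, u, v, hc⟩ := exCfg H α β hα hβ h1 h2 x hx y hy hxy
    exact hB.trans (cfg_id k hc)

/-- `V` contains `N₂A` if an algebra of the family is not of the type of `sl₂` -/
theorem semi_dich' (hExt : ExtProp.{u}) (hBase : BaseKillProp.{u}) (hHom : Sl2HomProp.{u})
    (hSl2 : Sl2IdProp.{u}) (k : Type u) [Field k] [CharZero k] (ι : Type u) [Nonempty ι]
    (A : ι → Type u) [∀ i, LieRing (A i)] [∀ i, LieAlgebra k (A i)]
    [∀ i, FiniteDimensional k (A i)] [∀ i, Nontrivial (A i)]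
    [∀ i, LieAlgebra.HasTrivialRadical k (A i)] :
    {g | ∀ i, ∀ ρ : ℕ → A i, FreeLieAlgebra.lift k ρ g = 0} = idOf k (sl2 k) ∨
      ∀ (L : Type u) [LieRing L] [LieAlgebra k L],
        (∀ a b c d e f : L, ⁅⁅⁅a, b⁆, ⁅c, d⁆⁆, ⁅e, f⁆⁆ = 0) →
        InVariety {g | ∀ i, ∀ ρ : ℕ → A i, FreeLieAlgebra.lift k ρ g = 0} L := by
  by_cases h : ∀ i, idOf k (A i) = idOf k (sl2 k)
  · left
    ext g
    constructor
    · intro hg
      have h5 : g ∈ idOf k (A (Classical.arbitrary ι)) := hg _
      rw [h] at h5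
      exact h5
    · intro hg i
      have h5 : g ∈ idOf k (A i) := by rw [h i]; exact hg
      exact h5
  · right
    push Not at h
    obtain ⟨i, hi⟩ := h
    have h1 := (semi_dich hExt hBase hHom hSl2 k (A i)).resolve_left hi
    intro L _ _ hL
    refine Q2.Abc.hN2c k two_ne_zero _ ?_ L hL
    intro g hg ρ
    exact h1 (fun ρ' => hg i ρ') ρ

end Pool.Agent.Lib.MP_240c17_al.Semi
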