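import Pool.Agent.Lib.MP_240c17_al.Semi.Spec
import Pool.Agent.Lib.MP_240c17_al.Q2.Defs2

/-!
# A copy of `k² ⋉ Heis₃` for two roots which do not commute
-/

set_option autoImplicit false

namespace Pool.Agent.Lib.MP_240c17_al.Semi

universe u v

open Pool.Agent.Lib.MP_240c17_al Pool.Agent.Lib.MP_240c17_al.Two Pool.Agent.Lib.MP_240c17_al.Tor
  Pool.Agent.Lib.MP_240c17_al.Q2

/-- an adapted configuration -/
structure Cfg {B : Type u} [LieRing B] (g1 g2 u v : B) : Prop where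
  gg : ⁅g1, g2⁆ = 0
  u1 : ⁅u, g1⁆ = u
  v1 : ⁅v, g1⁆ = 0
  u2 : ⁅u, g2⁆ = 0
  v2 : ⁅v, g2⁆ = v
  uv : ⁅u, v⁆ ≠ 0
  uw : ⁅u, ⁅u, v⁆⁆ = 0
  vw : ⁅v, ⁅u, v⁆⁆ = 0

section hom

variable {k : Type u} [Field k] {B : Type u} [LieRing B] [LieAlgebra k B] {g1 g2 u v : B}

theorem Cfg.w1 (h : Cfg g1 g2 u v) : ⁅⁅u, v⁆, g1⁆ = ⁅u, v⁆ := by
  rw [lie_lie, h.v1, h.u1, lie_zero, zero_sub, ← lie_skew, neg_neg]

theorem Cfg.w2 (h : Cfg g1 g2 u v) : ⁅⁅u, v⁆, g2⁆ = ⁅u, v⁆ := by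
  rw [lie_lie, h.v2, h.u2, lie_zero, sub_zero]

theorem Cfg.wu (h : Cfg g1 g2 u v) : ⁅⁅u, v⁆, u⁆ = 0 := by
  rw [← lie_skew, h.uw, neg_zero]

theorem Cfg.wv (h : Cfg g1 g2 u v) : ⁅⁅u, v⁆, v⁆ = 0 := by
  rw [← lie_skew, h.vw, neg_zero]

/-- the homomorphism -/
noncomputable def cfgHom (k : Type u) [Field k] {B : Type u} [LieRing B] [LieAlgebra k B]
    {g1 g2 u v : B} (h : Cfg g1 g2 u v) : H2 k →ₗ⁅k⁆ B where
  toFun p := p.t 0 • g1 + p.t 1 • g2 + p.a • u + p.b • v + p.c • ⁅u, v⁆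
  map_add' p q := by
    rw [HL.add_t, HL.add_a, HL.add_b, HL.add_c]
    simp only [Pi.add_apply, add_smul]
    abel
  map_smul' r p := by
    rw [HL.smul_t, HL.smul_a, HL.smul_b, HL.smul_c]
    simp only [Pi.smul_apply, smul_eq_mul, mul_smul, smul_add, RingHom.id_apply]
  map_lie' := by
    intro p q
    have g2g1 : ⁅g2, g1⁆ = 0 := by rw [← lie_skew, h.gg, neg_zero]
    have g1u : ⁅g1, u⁆ = -u := by rw [← lie_skew, h.u1]
    have g1v : ⁅g1, v⁆ = 0 := by rw [← lie_skew, h.v1, neg_zero]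
    have g2u : ⁅g2, u⁆ = 0 := by rw [← lie_skew, h.u2, neg_zero]
    have g2v : ⁅g2, v⁆ = -v := by rw [← lie_skew, h.v2]
    have g1w : ⁅g1, ⁅u, v⁆⁆ = -⁅u, v⁆ := by rw [← lie_skew, h.w1]
    have g2w : ⁅g2, ⁅u, v⁆⁆ = -⁅u, v⁆ := by rw [← lie_skew, h.w2]
    have vu : ⁅v, u⁆ = -⁅u, v⁆ := by rw [← lie_skew]
    have ht : ⁅p, q⁆.t = 0 := rfl
    rw [ht, HL.lie_a, HL.lie_b, HL.lie_c]
    simp only [lie_add, add_lie, lie_smul, smul_lie, lie_self, h.gg, g2g1, h.u1, h.v1, h.u2, h.v2,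
      h.uw, h.vw, h.w1, h.w2, h.wu, h.wv, g1u, g1v, g2u, g2v, g1w, g2w, vu, smul_neg, smul_zero,
      LinearMap.proj_apply, Pi.zero_apply, zero_smul]
    module

theorem cfgHom_inj (k : Type u) [Field k] {B : Type u} [LieRing B] [LieAlgebra k B]
    {g1 g2 u v : B} (h : Cfg g1 g2 u v) (p : H2 k) (hp : cfgHom k h p = 0) : p = 0 := by
  have h0 : p.t 0 • g1 + p.t 1 • g2 + p.a • u + p.b • v + p.c • ⁅u, v⁆ = 0 := hp
  have g2g1 : ⁅g2, g1⁆ = 0 := by rw [← lie_skew, h.gg, neg_zero]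
  have vu : ⁅v, u⁆ = -⁅u, v⁆ := by rw [← lie_skew]
  have g1u : ⁅g1, u⁆ = -u := by rw [← lie_skew, h.u1]
  have g1v : ⁅g1, v⁆ = 0 := by rw [← lie_skew, h.v1, neg_zero]
  have g2u : ⁅g2, u⁆ = 0 := by rw [← lie_skew, h.u2, neg_zero]
  have g2v : ⁅g2, v⁆ = -v := by rw [← lie_skew, h.v2]
  have hu : u ≠ 0 := by
    rintro rfl
    exact h.uv (zero_lie _)
  have hv : v ≠ 0 := by
    rintro rfl
    exact h.uv (lie_zero _)
  -- bracket with g1
  have h1 : p.a • u + p.c • ⁅u, v⁆ = 0 := by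
    have h2 := congrArg (fun z => ⁅z, g1⁆) h0
    simpa only [add_lie, smul_lie, lie_self, g2g1, h.u1, h.v1, h.w1, zero_lie, smul_zero,
      zero_add, add_zero] using h2
  have h2 : p.c • ⁅u, v⁆ = 0 := by
    have h3 := congrArg (fun z => ⁅z, g2⁆) h1
    simpa only [add_lie, smul_lie, h.u2, h.w2, zero_lie, smul_zero, zero_add, add_zero] using h3
  have hc : p.c = 0 := (smul_eq_zero.mp h2).resolve_right h.uv
  have ha : p.a = 0 := by
    rw [hc, zero_smul, add_zero] at h1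
    exact (smul_eq_zero.mp h1).resolve_right hu
  have hb : p.b = 0 := by
    have h3 := congrArg (fun z => ⁅z, g2⁆) h0
    rw [hc, ha] at h3
    have h4 : p.b • v = 0 := by
      simpa only [add_lie, smul_lie, lie_self, h.gg, h.u2, h.v2, h.w2, zero_lie, smul_zero,
        zero_smul, zero_add, add_zero] using h3
    exact (smul_eq_zero.mp h4).resolve_right hv
  have ht0 : p.t 0 = 0 := by
    have h3 := congrArg (fun z => ⁅z, u⁆) h0
    rw [hc, ha, hb] at h3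
    have h4 : p.t 0 • -u = 0 := by
      simpa only [add_lie, smul_lie, lie_self, g1u, g2u, zero_lie, smul_zero,
        zero_smul, zero_add, add_zero] using h3
    exact (smul_eq_zero.mp h4).resolve_right (neg_ne_zero.mpr hu)
  have ht1 : p.t 1 = 0 := by
    have h3 := congrArg (fun z => ⁅z, v⁆) h0
    rw [hc, ha, hb] at h3
    have h4 : p.t 1 • -v = 0 := by
      simpa only [add_lie, smul_lie, lie_self, g1v, g2v, zero_lie, smul_zero,
        zero_smul, zero_add, add_zero] using h3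
    exact (smul_eq_zero.mp h4).resolve_right (neg_ne_zero.mpr hv)
  ext1
  · funext i
    fin_cases i
    · exact ht0
    · exact ht1
  · exact ha
  · exact hb
  · exact hc

/-- the identities of `B` hold in `H2` -/
theorem cfg_id (k : Type u) [Field k] {B : Type u} [LieRing B] [LieAlgebra k B]
    {g1 g2 u v : B} (h : Cfg g1 g2 u v) : idOf k B ⊆ idOf k (H2 k) := by
  intro g hg ρ
  apply cfgHom_inj k h
  have h1 : FreeLieAlgebra.lift k (fun i => cfgHom k h (ρ i)) =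
      (cfgHom k h).comp (FreeLieAlgebra.lift k ρ) := by
    apply FreeLieAlgebra.hom_ext
    intro i
    simp
  have h2 := hg (fun i => cfgHom k h (ρ i))
  rw [h1] at h2
  exact h2

end hom

end Pool.Agent.Lib.MP_240c17_al.Semi
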