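import Pool.Agent.Lib.MP_240c17_al.Semi.Spec

/-!
Multiplication by the functions `t (ev ω y) (ev ω y')` on the derived ideal (A3).
-/

set_option autoImplicit false

namespace Pool.Agent.Lib.MP_240c17_al.Semi

universe u

open Pool.Agent.Lib.MP_240c17_al Pool.Agent.Lib.MP_240c17_al.Two Pool.Agent.Lib.MP_240c17_al.Tor

private theorem mul_key {k : Type u} [Field k] {A : Type u} [LieRing A] [LieAlgebra k A]
    {t : A →ₗ[k] A →ₗ[k] k} (hV : VP k A t) (y a b : A) :
    ⁅y, ⁅y, ⁅a, b⁆⁆⁆ - ⁅⁅y, a⁆, ⁅y, b⁆⁆ = t y y • ⁅a, b⁆ := by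
  have h1 : t ⁅y, a⁆ y = 0 := by
    rw [hV.inv, hV.symm, hV.inv, lie_self, map_zero]
  rw [hV.vp y y ⁅a, b⁆, hV.vp ⁅y, a⁆ y b, h1, hV.inv y a b, zero_smul, zero_sub, sub_neg_eq_add,
    sub_add_cancel]

theorem mul_ : MulProp.{u} := by
  classical
  intro k _ h2 A _ _ t hV F _ _ Ω ev hinj
  have huniq : ∀ u v : F, (∀ ω, ev ω u = ev ω v) → u = v := by
    intro u v h
    have h' := hinj (u - v) (fun ω => by rw [map_sub, h ω, sub_self])
    exact sub_eq_zero.mp h'
  -- existence for `y = y'`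
  have hex1 : ∀ y : F, ∀ g ∈ D1 k F, ∃ g' ∈ D1 k F, ∀ ω,
      ev ω g' = t (ev ω y) (ev ω y) • ev ω g := by
    intro y
    let Y : Submodule k F :=
      { carrier := {g | ∃ g' ∈ D1 k F, ∀ ω, ev ω g' = t (ev ω y) (ev ω y) • ev ω g}
        add_mem' := by
          rintro a b ⟨a', ha, ha'⟩ ⟨b', hb, hb'⟩
          refine ⟨a' + b', add_mem ha hb, fun ω => ?_⟩
          rw [map_add, map_add, ha', hb', smul_add]
        zero_mem' := ⟨0, zero_mem _, fun ω => by rw [map_zero, smul_zero]⟩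
        smul_mem' := by
          rintro c a ⟨a', ha, ha'⟩
          refine ⟨c • a', (D1 k F).toSubmodule.smul_mem c ha, fun ω => ?_⟩
          rw [map_smul, map_smul, ha', smul_comm] }
    have hY : (D1 k F).toSubmodule ≤ Y := by
      apply D1_le
      intro a b
      refine ⟨⁅y, ⁅y, ⁅a, b⁆⁆⁆ - ⁅⁅y, a⁆, ⁅y, b⁆⁆, sub_mem (lie_mem_D1 _ _) (lie_mem_D1 _ _),
        fun ω => ?_⟩
      rw [map_sub]
      simp only [LieHom.map_lie]
      exact mul_key hV _ _ _
    intro g hg
    exact hY hg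
  have hex : ∀ y y' : F, ∀ g ∈ D1 k F, ∃ g' ∈ D1 k F, ∀ ω,
      ev ω g' = t (ev ω y) (ev ω y') • ev ω g := by
    intro y y' g hg
    obtain ⟨g1, hg1, e1⟩ := hex1 (y + y') g hg
    obtain ⟨g2, hg2, e2⟩ := hex1 y g hg
    obtain ⟨g3, hg3, e3⟩ := hex1 y' g hg
    refine ⟨(2 : k)⁻¹ • (g1 - g2 - g3),
      (D1 k F).toSubmodule.smul_mem _ (sub_mem (sub_mem hg1 hg2) hg3), fun ω => ?_⟩
    rw [map_smul, map_sub, map_sub, e1, e2, e3, ← sub_smul, ← sub_smul, smul_smul]
    congr 1
    have e4 : t (ev ω (y + y')) (ev ω (y + y')) = t (ev ω y) (ev ω y) +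
        2 * t (ev ω y) (ev ω y') + t (ev ω y') (ev ω y') := by
      rw [map_add, map_add, map_add, LinearMap.add_apply, LinearMap.add_apply,
        hV.symm (ev ω y') (ev ω y)]
      ring
    rw [e4]
    field_simp
    ring
  -- a projection onto the derived ideal
  obtain ⟨π, hπ⟩ := LinearMap.exists_leftInverse_of_injective (D1 k F).toSubmodule.subtype
    (Submodule.ker_subtype _)
  have hπ' : ∀ g (hg : g ∈ D1 k F), (π g : F) = g := by
    intro g hg
    have h := congrArg (fun φ => φ (⟨g, hg⟩ : (D1 k F).toSubmodule)) hπ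
    have h' : π g = ⟨g, hg⟩ := h
    rw [h']
  have hc : ∀ y y' g : F, ∃ g' ∈ D1 k F, ∀ ω, ev ω g' = t (ev ω y) (ev ω y') • ev ω (π g : F) :=
    fun y y' g => hex y y' (π g : F) (π g).2
  choose m hm hm' using hc
  refine ⟨LinearMap.mk₂ k (fun y y' =>
    ({ toFun := m y y'
       map_add' := ?_
       map_smul' := ?_ } : Module.End k F)) ?_ ?_ ?_ ?_, ?_, ?_, ?_⟩
  · intro a b
    apply huniq
    intro ω
    rw [map_add, hm', hm', hm', map_add, Submodule.coe_add, map_add, smul_add]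
  · intro c a
    apply huniq
    intro ω
    rw [RingHom.id_apply, map_smul, hm', hm', map_smul, Submodule.coe_smul, map_smul, smul_comm]
  · intro a b y'
    refine LinearMap.ext fun g => huniq _ _ fun ω => ?_
    change ev ω (m (a + b) y' g) = ev ω (m a y' g + m b y' g)
    rw [map_add, hm', hm', hm', map_add, map_add, LinearMap.add_apply, add_smul]
  · intro c a y'
    refine LinearMap.ext fun g => huniq _ _ fun ω => ?_
    change ev ω (m (c • a) y' g) = ev ω (c • m a y' g)
    rw [map_smul, hm', hm', map_smul, map_smul, LinearMap.smul_apply, smul_assoc]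
  · intro y a b
    refine LinearMap.ext fun g => huniq _ _ fun ω => ?_
    change ev ω (m y (a + b) g) = ev ω (m y a g + m y b g)
    rw [map_add, hm', hm', hm', map_add, map_add, add_smul]
  · intro c y a
    refine LinearMap.ext fun g => huniq _ _ fun ω => ?_
    change ev ω (m y (c • a) g) = ev ω (c • m y a g)
    rw [map_smul, hm', hm', map_smul, map_smul, smul_assoc]
  · intro y y'
    refine LinearMap.ext fun g => huniq _ _ fun ω => ?_
    change ev ω (m y y' g) = ev ω (m y' y g)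
    rw [hm', hm', hV.symm]
  · intro y y' g
    exact hm y y' g
  · intro y y' g hg ω
    change ev ω (m y y' g) = _
    rw [hm', hπ' g hg]

end Pool.Agent.Lib.MP_240c17_al.Semi
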