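import Pool.Agent.Lib.MP_240c17_al.Semi.Spec

/-!
# (A4): relations of the operators of (A3)
-/

set_option autoImplicit false

namespace Pool.Agent.Lib.MP_240c17_al.Semi

universe u

open Pool.Agent.Lib.MP_240c17_al Pool.Agent.Lib.MP_240c17_al.Two Pool.Agent.Lib.MP_240c17_al.Tor

private theorem MulRel_zero {k : Type u} [Field k] {A : Type u} [LieRing A] [LieAlgebra k A]
    {t : A →ₗ[k] A →ₗ[k] k} (h : VP k A t) (a b : A) : t a ⁅b, a⁆ = 0 := by
  rw [← h.inv, h.symm, ← h.inv, lie_self]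
  simp

private theorem MulRel_cube {k : Type u} [Field k] {A : Type u} [LieRing A] [LieAlgebra k A]
    {t : A →ₗ[k] A →ₗ[k] k} (h : VP k A t) (a b : A) :
    ⁅⁅⁅b, a⁆, a⁆, a⁆ = t a a • ⁅b, a⁆ := by
  rw [← lie_skew, h.vp, MulRel_zero h a b]
  simp

/-- (A4) -/
theorem mulRel : MulRelProp.{u} := by
  intro k _ A _ _ t hVP F _ _ Ω ev hinj M hMD hM
  have hext : ∀ f g : F, (∀ ω, ev ω f = ev ω g) → f = g := by
    intro f g hfg
    refine sub_eq_zero.mp (hinj (f - g) fun ω => ?_)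
    rw [map_sub, hfg ω, sub_self]
  refine ⟨?_, ?_, ?_⟩
  · intro y y' g hg z
    refine hext _ _ fun ω => ?_
    rw [hM y y' ⁅g, z⁆ (lie_mem_D1 g z) ω, LieHom.map_lie, LieHom.map_lie, hM y y' g hg ω,
      smul_lie]
  · intro y y' z z' g hg
    refine hext _ _ fun ω => ?_
    rw [hM y y' _ (hMD z z' g) ω, hM z z' g hg ω, hM z z' _ (hMD y y' g) ω, hM y y' g hg ω,
      smul_smul, smul_smul, mul_comm]
  · intro y g hg
    refine hext _ _ fun ω => ?_
    rw [pw_map k (ev ω) y 1, pw_map k (ev ω) y 3, hM y y g hg ω]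
    rw [pw_one, pw_succ, pw_succ, pw_one, smul_lie, MulRel_cube hVP]

end Pool.Agent.Lib.MP_240c17_al.Semi
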