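import Pool.Agent.Lib.MP_240c17_al.Semi.Spec

/-!
Points of a moment curve: all products are combinations of squares.
-/

set_option autoImplicit false

namespace Pool.Agent.Lib.MP_240c17_al.Semi

universe u

private theorem nodes_inv (k : Type u) [Field k] {n : ℕ} (ν : Fin n → k)
    (hν : Function.Injective ν) : ∃ W : Fin n → Fin n → k, ∀ i l : Fin n,
      ∑ s : Fin n, W i s * ν s ^ (l : ℕ) = if i = l then 1 else 0 := by
  have hdet : IsUnit (Matrix.vandermonde ν).det :=
    isUnit_iff_ne_zero.2 (Matrix.det_vandermonde_ne_zero_iff.2 hν)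
  refine ⟨fun i s => (Matrix.vandermonde ν)⁻¹ i s, ?_⟩
  intro i l
  have h1 := Matrix.nonsing_inv_mul (Matrix.vandermonde ν) hdet
  have h2 := congrFun (congrFun h1 i) l
  rw [Matrix.mul_apply, Matrix.one_apply] at h2
  simpa [Matrix.vandermonde_apply] using h2

private theorem pow3_lt {b d : ℕ} (a c : ℕ) (hab : a ≤ b) (hbd : b < d) :
    3 ^ a + 3 ^ b < 3 ^ c + 3 ^ d := by
  have h1 : 3 ^ a ≤ 3 ^ b := Nat.pow_le_pow_right (by norm_num) hab
  have h2 : 3 ^ (b + 1) ≤ 3 ^ d := Nat.pow_le_pow_right (by norm_num) hbd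
  have h3 : 3 ^ (b + 1) = 3 * 3 ^ b := by ring
  have h4 : 0 < 3 ^ c := Nat.pos_of_ne_zero (by positivity)
  have h5 : 0 < 3 ^ b := Nat.pos_of_ne_zero (by positivity)
  omega

private theorem pow3_le {a b c d : ℕ} (hab : a ≤ b) (hcd : c ≤ d)
    (h : 3 ^ a + 3 ^ b = 3 ^ c + 3 ^ d) : a = c ∧ b = d := by
  have hbd : b = d := by
    rcases lt_trichotomy b d with h1 | h1 | h1
    · exact absurd h (ne_of_lt (pow3_lt a c hab h1))
    · exact h1
    · exact absurd h.symm (ne_of_lt (pow3_lt c a hcd h1))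
  subst hbd
  have h2 : 3 ^ a = 3 ^ c := by omega
  exact ⟨Nat.pow_right_injective (le_refl 2 |>.trans (by norm_num)) h2, rfl⟩

private theorem pow3_eq {a b c d : ℕ} (h : 3 ^ a + 3 ^ b = 3 ^ c + 3 ^ d) :
    (a = c ∧ b = d) ∨ (a = d ∧ b = c) := by
  rcases le_total a b with hab | hab <;> rcases le_total c d with hcd | hcd
  · exact Or.inl (pow3_le hab hcd h)
  · exact Or.inr (pow3_le hab hcd (by rw [h]; ring))
  · have h3 := pow3_le hab hcd (by rw [add_comm, h])
    exact Or.inr ⟨h3.2, h3.1⟩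
  · have h3 := pow3_le hab hcd (by rw [add_comm, h]; ring)
    exact Or.inl ⟨h3.2, h3.1⟩

theorem nodes : NodesProp.{u} := by
  intro k _ h2 F _ _ M hM n x
  classical
  have hlt : ∀ i : Fin n, 3 ^ (i : ℕ) < 3 ^ n := fun i =>
    Nat.pow_lt_pow_right (by norm_num) i.2
  let σ : Fin n → Fin (3 ^ n) := fun i => ⟨3 ^ (i : ℕ), hlt i⟩
  have hσ : Function.Injective σ := by
    intro a b h
    have h1 : 3 ^ (a : ℕ) = 3 ^ (b : ℕ) := congrArg Fin.val h
    exact Fin.ext (Nat.pow_right_injective (le_refl 2 |>.trans (by norm_num)) h1)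
  let x' : Fin (3 ^ n) → F := Function.extend σ x (fun _ => 0)
  have hx' : ∀ i, x' (σ i) = x i := fun i => hσ.extend_apply x _ i
  have hx0 : ∀ s, s ∉ Set.range σ → x' s = 0 := by
    intro s hs
    exact Function.extend_apply' _ _ _ (fun ⟨i, hi⟩ => hs ⟨i, hi⟩)
  have hsum : ∀ μ : k, ∑ s : Fin (3 ^ n), μ ^ (s : ℕ) • x' s =
      ∑ i : Fin n, μ ^ 3 ^ (i : ℕ) • x i := by
    intro μ
    refine (Fintype.sum_of_injective σ hσ _ _ (fun s hs => ?_) (fun i => ?_)).symm
    · rw [hx0 s hs, smul_zero]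
    · rw [hx' i]
  refine ⟨x', fun i => ⟨σ i, hx' i⟩, ?_, hsum, ?_⟩
  · intro s
    by_cases hs : s ∈ Set.range σ
    · obtain ⟨i, rfl⟩ := hs
      exact Or.inr ⟨i, hx' i⟩
    · exact Or.inl (hx0 s hs)
  · intro ν hν i₀ j₀
    obtain ⟨W, hW⟩ := nodes_inv k ν hν
    have hL : 3 ^ (i₀ : ℕ) + 3 ^ (j₀ : ℕ) < 3 ^ n := by
      have hn : 0 < n := lt_of_le_of_lt (Nat.zero_le _) i₀.2
      have h3 : 3 ^ n = 3 * 3 ^ (n - 1) := by
        rw [← pow_succ', Nat.sub_add_cancel hn]
      have h4 : 3 ^ (i₀ : ℕ) ≤ 3 ^ (n - 1) := Nat.pow_le_pow_right (by norm_num) (by omega)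
      have h5 : 3 ^ (j₀ : ℕ) ≤ 3 ^ (n - 1) := Nat.pow_le_pow_right (by norm_num) (by omega)
      have h6 : 0 < 3 ^ (n - 1) := Nat.pos_of_ne_zero (by positivity)
      omega
    have hL' : ∀ i j : Fin n, 3 ^ (i : ℕ) + 3 ^ (j : ℕ) < 3 ^ n := by
      intro i j
      have hn : 0 < n := lt_of_le_of_lt (Nat.zero_le _) i₀.2
      have h3 : 3 ^ n = 3 * 3 ^ (n - 1) := by
        rw [← pow_succ', Nat.sub_add_cancel hn]
      have h4 : 3 ^ (i : ℕ) ≤ 3 ^ (n - 1) := Nat.pow_le_pow_right (by norm_num) (by omega)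
      have h5 : 3 ^ (j : ℕ) ≤ 3 ^ (n - 1) := Nat.pow_le_pow_right (by norm_num) (by omega)
      have h6 : 0 < 3 ^ (n - 1) := Nat.pos_of_ne_zero (by positivity)
      omega
    let L : Fin (3 ^ n) := ⟨3 ^ (i₀ : ℕ) + 3 ^ (j₀ : ℕ), hL⟩
    let Q : Fin (3 ^ n) → Module.End k F := fun s =>
      M (∑ l : Fin (3 ^ n), ν s ^ (l : ℕ) • x' l) (∑ l : Fin (3 ^ n), ν s ^ (l : ℕ) • x' l)
    have hQ : ∀ s, Q s = ∑ i : Fin n, ∑ j : Fin n,
        ν s ^ (3 ^ (i : ℕ) + 3 ^ (j : ℕ)) • M (x i) (x j) := by
      intro s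
      simp only [Q]
      rw [hsum (ν s)]
      simp only [map_sum, LinearMap.sum_apply, map_smul, LinearMap.smul_apply,
        pow_add]
      rw [Finset.sum_comm]
      refine Finset.sum_congr rfl (fun i _ => ?_)
      rw [Finset.smul_sum]
      refine Finset.sum_congr rfl (fun j _ => ?_)
      rw [smul_smul, mul_comm]
    have hkey : ∑ s, W L s • Q s =
        ∑ i : Fin n, ∑ j : Fin n, (if 3 ^ (i₀ : ℕ) + 3 ^ (j₀ : ℕ) = 3 ^ (i : ℕ) + 3 ^ (j : ℕ)
          then (1 : k) else 0) • M (x i) (x j) := by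
      simp only [hQ, Finset.smul_sum, smul_smul]
      rw [Finset.sum_comm]
      refine Finset.sum_congr rfl (fun i _ => ?_)
      rw [Finset.sum_comm]
      refine Finset.sum_congr rfl (fun j _ => ?_)
      rw [← Finset.sum_smul]
      congr 1
      have h := hW L ⟨3 ^ (i : ℕ) + 3 ^ (j : ℕ), hL' i j⟩
      rw [h]
      simp only [L, Fin.mk.injEq]
    have hmem : ∑ s, W L s • Q s ∈ Submodule.span k (Set.range Q) :=
      Submodule.sum_mem _ (fun s _ => Submodule.smul_mem _ _ (Submodule.subset_span ⟨s, rfl⟩))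
    have hval : ∃ c : k, c ≠ 0 ∧ ∑ s, W L s • Q s = c • M (x i₀) (x j₀) := by
      by_cases hij : i₀ = j₀
      · subst hij
        refine ⟨1, one_ne_zero, ?_⟩
        rw [hkey, Finset.sum_eq_single i₀, Finset.sum_eq_single i₀]
        · rw [if_pos rfl]
        · intro j _ hj
          rw [if_neg, zero_smul]
          intro h
          rcases pow3_eq h with h1 | h1
          · exact hj (Fin.ext h1.2.symm)
          · exact hj (Fin.ext h1.1.symm)
        · intro h; exact absurd (Finset.mem_univ _) h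
        · intro i _ hi
          refine Finset.sum_eq_zero (fun j _ => ?_)
          rw [if_neg, zero_smul]
          intro h
          rcases pow3_eq h with h1 | h1
          · exact hi (Fin.ext h1.1.symm)
          · exact hi (Fin.ext h1.2.symm)
        · intro h; exact absurd (Finset.mem_univ _) h
      · refine ⟨2, h2, ?_⟩
        have hrow : ∀ i : Fin n, ∑ j : Fin n,
            (if 3 ^ (i₀ : ℕ) + 3 ^ (j₀ : ℕ) = 3 ^ (i : ℕ) + 3 ^ (j : ℕ)
              then (1 : k) else 0) • M (x i) (x j) =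
            (if i = i₀ then M (x i₀) (x j₀) else 0) + (if i = j₀ then M (x j₀) (x i₀) else 0) := by
          intro i
          by_cases h1 : i = i₀
          · subst h1
            rw [if_pos rfl, if_neg hij, add_zero, Finset.sum_eq_single j₀]
            · rw [if_pos rfl, one_smul]
            · intro j _ hj
              rw [if_neg, zero_smul]
              intro h
              rcases pow3_eq h with h3 | h3
              · exact hj (Fin.ext h3.2.symm)
              · exact hij (Fin.ext h3.2.symm)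
            · intro h; exact absurd (Finset.mem_univ _) h
          · by_cases h3 : i = j₀
            · subst h3
              rw [if_neg h1, if_pos rfl, zero_add, Finset.sum_eq_single i₀]
              · rw [if_pos (by ring), one_smul]
              · intro j _ hj
                rw [if_neg, zero_smul]
                intro h
                rcases pow3_eq h with h4 | h4
                · exact h1 (Fin.ext h4.1.symm)
                · exact hj (Fin.ext h4.1.symm)
              · intro h; exact absurd (Finset.mem_univ _) h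
            · rw [if_neg h1, if_neg h3, add_zero]
              refine Finset.sum_eq_zero (fun j _ => ?_)
              rw [if_neg, zero_smul]
              intro h
              rcases pow3_eq h with h4 | h4
              · exact h1 (Fin.ext h4.1.symm)
              · exact h3 (Fin.ext h4.2.symm)
        rw [hkey, Finset.sum_congr rfl (fun i _ => hrow i), Finset.sum_add_distrib,
          Finset.sum_ite_eq' , Finset.sum_ite_eq', if_pos (Finset.mem_univ _),
          if_pos (Finset.mem_univ _), hM (x j₀) (x i₀), two_smul]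
    obtain ⟨c, hc, hce⟩ := hval
    have h5 : M (x i₀) (x j₀) = c⁻¹ • ∑ s, W L s • Q s := by
      rw [hce, smul_smul, inv_mul_cancel₀ hc, one_smul]
    rw [h5]
    exact Submodule.smul_mem _ _ hmem

end Pool.Agent.Lib.MP_240c17_al.Semi
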