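import Pool.Agent.Lib.MP_240c17_al.Semi.Spec
import Pool.Agent.Lib.MP_240c17_al.Two.Mod
import Pool.Agent.Lib.MP_240c17_al.Two.Hilbert

/-!
The Noetherian property of the derived ideal under the multiplications (A5).
-/

set_option autoImplicit false

namespace Pool.Agent.Lib.MP_240c17_al.Semi

universe u

open Pool.Agent.Lib.MP_240c17_al Pool.Agent.Lib.MP_240c17_al.Two Pool.Agent.Lib.MP_240c17_al.Tor

theorem noeth_ : NoethProp.{u} := by
  classical
  intro k _ A _ _ t hV F _ _ Ω ev hinj M hMD hM n x hx U hUD hU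
  -- the operators on the space of functions
  let φ : Fin n × Fin n → Module.End k (Ω → A) := fun s =>
    { toFun := fun f ω => t (ev ω (x s.1)) (ev ω (x s.2)) • f ω
      map_add' := fun f g => by
        funext ω
        exact smul_add _ _ _
      map_smul' := fun c f => by
        funext ω
        exact smul_comm _ _ _ }
  have hφ : ∀ s f ω, φ s f ω = t (ev ω (x s.1)) (ev ω (x s.2)) • f ω := fun _ _ _ => rfl
  let Φ : F →ₗ[k] (Ω → A) :=
    { toFun := fun f ω => ev ω f
      map_add' := fun f g => by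
        funext ω
        exact map_add (ev ω) f g
      map_smul' := fun c f => by
        funext ω
        exact map_smul (ev ω) c f }
  have hΦ : ∀ f ω, Φ f ω = ev ω f := fun _ _ => rfl
  have hΦinj : Function.Injective Φ := by
    intro f g h
    have h' : f - g = 0 := by
      apply hinj
      intro ω
      rw [map_sub, ← hΦ, ← hΦ, h, sub_self]
    exact sub_eq_zero.mp h'
  have hφΦ : ∀ s, ∀ g ∈ D1 k F, φ s (Φ g) = Φ (M (x s.1) (x s.2) g) := by
    intro s g hg
    funext ω
    rw [hφ, hΦ, hΦ, hM _ _ g hg]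
  let S₀ : Finset (Ω → A) := (Finset.univ.image fun i : Fin n => Φ (x i)) ∪
    (Finset.univ.image fun s : Fin n × Fin n => Φ ⁅x s.1, x s.2⁆)
  have hS1 : ∀ i, Φ (x i) ∈ (S₀ : Set (Ω → A)) := by
    intro i
    rw [Finset.mem_coe, Finset.mem_union]
    exact Or.inl (Finset.mem_image_of_mem _ (Finset.mem_univ i))
  have hS2 : ∀ i j, Φ ⁅x i, x j⁆ ∈ (S₀ : Set (Ω → A)) := by
    intro i j
    rw [Finset.mem_coe, Finset.mem_union]
    exact Or.inr (Finset.mem_image_of_mem (fun s : Fin n × Fin n => Φ ⁅x s.1, x s.2⁆)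
      (Finset.mem_univ (i, j)))
  set Z : Submodule k (Ω → A) := Two.gen φ (S₀ : Set (Ω → A)) with hZdef
  have hZst : Stab φ Z := gen_stab φ _
  have hSZ : (S₀ : Set (Ω → A)) ⊆ Z := subset_gen φ _
  -- the bracket with a generator
  let L : Fin n → ((Ω → A) →ₗ[k] (Ω → A)) := fun l =>
    { toFun := fun f ω => ⁅ev ω (x l), f ω⁆
      map_add' := fun f g => by
        funext ω
        exact lie_add _ _ _
      map_smul' := fun c f => by
        funext ω
        exact lie_smul _ _ _ }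
  have hL : ∀ l f ω, L l f ω = ⁅ev ω (x l), f ω⁆ := fun _ _ _ => rfl
  have hLΦ : ∀ l g, L l (Φ g) = Φ ⁅x l, g⁆ := by
    intro l g
    funext ω
    rw [hL, hΦ, hΦ, LieHom.map_lie]
  have hLZ : ∀ l, Z ≤ Z.comap (L l) := by
    intro l
    apply gen_le
    · intro s f hf
      have h1 : L l (φ s f) = φ s (L l f) := by
        funext ω
        rw [hL, hφ, hφ, hL, lie_smul]
      rw [Submodule.mem_comap, h1]
      exact hZst s _ hf
    · intro f hf
      rw [Finset.mem_coe, Finset.mem_union, Finset.mem_image, Finset.mem_image] at hf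
      rcases hf with ⟨i, -, rfl⟩ | ⟨⟨i, j⟩, -, rfl⟩
      · change L l (Φ (x i)) ∈ Z
        rw [hLΦ]
        exact hSZ (hS2 l i)
      · change L l (Φ ⁅x i, x j⁆) ∈ Z
        have h1 : L l (Φ ⁅x i, x j⁆) = φ (l, i) (Φ (x j)) - φ (l, j) (Φ (x i)) := by
          funext ω
          rw [hL, hΦ, LieHom.map_lie, hV.vp, Pi.sub_apply, hφ, hφ, hΦ, hΦ]
        rw [h1]
        exact Z.sub_mem (hZst _ _ (hSZ (hS1 j))) (hZst _ _ (hSZ (hS1 i)))
  have hwd : ∀ (i : Fin n) (ls : List (Fin n)), Φ (wd (x i) (ls.map x)) ∈ Z := by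
    intro i ls
    induction ls using List.reverseRecOn with
    | nil => exact hSZ (hS1 i)
    | append_singleton ls l ih =>
      rw [List.map_append, List.map_singleton, wd_concat, ← lie_skew, map_neg, ← hLΦ]
      exact Z.neg_mem (hLZ l ih)
  have hall : ∀ f, Φ f ∈ Z := by
    intro f
    have h1 : (⊤ : Submodule k F) ≤ Z.comap Φ := by
      rw [← words_span hx, Submodule.span_le]
      rintro _ ⟨i, ls, rfl⟩
      exact hwd i ls
    exact h1 (Submodule.mem_top : f ∈ (⊤ : Submodule k F))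
  -- Hilbert
  have hst : Stab φ (U.map Φ) := by
    rintro s _ ⟨w, hw, rfl⟩
    exact ⟨M (x s.1) (x s.2) w, hU s.1 s.2 w hw, (hφΦ s w (hUD hw)).symm⟩
  obtain ⟨S', hS'⟩ := hilbert mod_ k (Ω → A) (Fin n × Fin n) φ ⊥ Z (U.map Φ) (stab_bot φ) (by
    intro i j f _
    rw [Submodule.mem_bot, sub_eq_zero]
    funext ω
    rw [hφ, hφ, hφ, hφ, smul_comm]) ⟨S₀, by rw [sup_bot_eq]⟩ hst bot_le (by
    rintro _ ⟨w, -, rfl⟩
    exact hall w)
  rw [sup_bot_eq] at hS'
  have hsub : (S' : Set (Ω → A)) ⊆ Φ '' (U : Set F) := by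
    intro f hf
    have h1 : f ∈ U.map Φ := by
      rw [← hS']
      exact subset_gen φ _ hf
    exact h1
  obtain ⟨S, hSU, hSS⟩ := Finset.subset_set_image_iff.mp hsub
  refine ⟨S, le_antisymm ?_ ?_⟩
  · apply gen_le
    · intro s w hw
      exact hU s.1 s.2 w hw
    · exact hSU
  · have hle : Two.gen (fun s : Fin n × Fin n => M (x s.1) (x s.2)) (S : Set F) ≤ U := by
      apply gen_le
      · intro s w hw
        exact hU s.1 s.2 w hw
      · exact hSU
    intro u hu
    have h1 : Two.gen φ (S' : Set (Ω → A)) ≤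
        (Two.gen (fun s : Fin n × Fin n => M (x s.1) (x s.2)) (S : Set F)).map Φ := by
      apply gen_le
      · rintro s _ ⟨w, hw, rfl⟩
        exact ⟨M (x s.1) (x s.2) w, gen_stab _ _ s w hw, (hφΦ s w (hUD (hle hw))).symm⟩
      · intro f hf
        rw [← hSS, Finset.coe_image] at hf
        obtain ⟨s, hs, rfl⟩ := hf
        exact ⟨s, subset_gen _ _ hs, rfl⟩
    have h2 : Φ u ∈ Two.gen φ (S' : Set (Ω → A)) := by
      rw [hS']
      exact ⟨u, hu, rfl⟩
    obtain ⟨w, hw, hwu⟩ := h1 h2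
    rw [← hΦinj hwu]
    exact hw

end Pool.Agent.Lib.MP_240c17_al.Semi
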