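import Pool.Agent.Lib.MP_240c17_al.Semi.Heis

/-!
# Two independent roots which do not commute give an adapted configuration
-/

set_option autoImplicit false

namespace Pool.Agent.Lib.MP_240c17_al.Semi

universe u v

open Pool.Agent.Lib.MP_240c17_al Pool.Agent.Lib.MP_240c17_al.Two Pool.Agent.Lib.MP_240c17_al.Tor

private theorem r2_forms {K : Type u} [Field K] {H : Type u} [AddCommGroup H] [Module K H]
    (a b : H →ₗ[K] K) (ha : a ≠ 0) (hab : ∀ t : K, b ≠ t • a) (τ : K) :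
    ∃ h : H, a h = 1 ∧ b h = τ := by
  obtain ⟨h₀, h1, h2⟩ : ∃ h₀, a h₀ = 0 ∧ b h₀ ≠ 0 := by
    by_contra hne
    push Not at hne
    have h3 : b ∈ Submodule.span K (Set.range fun _ : Unit => a) :=
      mem_span_of_iInf_ker_le_ker (by
        intro h hh
        rw [LinearMap.mem_ker]
        apply hne
        rw [Submodule.mem_iInf] at hh
        exact LinearMap.mem_ker.mp (hh ()))
    rw [Set.range_const, Submodule.mem_span_singleton] at h3
    obtain ⟨t, ht⟩ := h3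
    exact hab t ht.symm
  obtain ⟨g, hg⟩ : ∃ g, a g ≠ 0 := by
    by_contra hne
    push Not at hne
    exact ha (LinearMap.ext hne)
  refine ⟨(a g)⁻¹ • g + ((τ - (a g)⁻¹ * b g) / b h₀) • h₀, ?_, ?_⟩
  · simp [h1, inv_mul_cancel₀ hg]
  · rw [map_add, map_smul, map_smul, smul_eq_mul, smul_eq_mul, div_mul_cancel₀ _ h2]
    ring

section

variable {K : Type u} [Field K] [CharZero K] [IsAlgClosed K] {B : Type u} [LieRing B]
  [LieAlgebra K B] [FiniteDimensional K B] [LieAlgebra.IsKilling K B]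
  (H : LieSubalgebra K B) [H.IsCartanSubalgebra]

private theorem r2_hh (α β : LieModule.Weight K H B) (hα : α.IsNonZero) (hβ : β.IsNonZero)
    (h1 : β ≠ α) (h2 : β ≠ -α) (τ : K) : ∃ h : H, α h = 1 ∧ β h = τ := by
  obtain ⟨h, ha, hb⟩ := r2_forms (LieModule.Weight.toLinear K H B α)
    (LieModule.Weight.toLinear K H B β)
    (by
      intro h0
      apply hα
      have h3 := congrArg (fun f : H →ₗ[K] K => (f : H → K)) h0
      show (α : H → K) = 0
      funext g
      exact congrFun h3 g)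
    (by
      intro t h0
      have h3 := congrArg (fun f : H →ₗ[K] K => (f : H → K)) h0
      rcases LieAlgebra.IsKilling.eq_neg_or_eq_of_eq_smul α β hβ t (by simpa using h3) with h4 | h4
      · exact h2 h4
      · exact h1 h4) τ
  exact ⟨h, ha, hb⟩

private theorem r2_self (α : LieModule.Weight K H B) (hα : α.IsNonZero)
    {x y : B} (hx : x ∈ LieAlgebra.rootSpace H α) (hy : y ∈ LieAlgebra.rootSpace H α) :
    ⁅x, y⁆ = 0 := by
  by_cases hx0 : x = 0
  · rw [hx0, zero_lie]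
  have hf := LieAlgebra.IsKilling.finrank_rootSpace_eq_one α hα
  obtain ⟨c, hc⟩ := (finrank_eq_one_iff_of_nonzero' (⟨x, hx⟩ : LieAlgebra.rootSpace H α)
    (fun h => hx0 (congrArg Subtype.val h))).mp hf ⟨y, hy⟩
  have h3 : c • x = y := congrArg Subtype.val hc
  rw [← h3, lie_smul, lie_self, smul_zero]

theorem exCfg (α β : LieModule.Weight K H B) (hα : α.IsNonZero) (hβ : β.IsNonZero)
    (h1 : β ≠ α) (h2 : β ≠ -α) (x : B) (hx : x ∈ LieAlgebra.rootSpace H α) (y : B)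
    (hy : y ∈ LieAlgebra.rootSpace H β) (hxy : ⁅x, y⁆ ≠ 0) : ∃ g1 g2 u v : B, Cfg g1 g2 u v := by
  classical
  obtain ⟨h₀, ha, hb⟩ := r2_hh H α β hα hβ h1 h2 1
  obtain ⟨π, hπ⟩ := LinearMap.exists_leftInverse_of_injective (Algebra.linearMap ℚ K)
    (LinearMap.ker_eq_bot.mpr (algebraMap ℚ K).injective)
  have hπ1 : π 1 = 1 := by
    have h3 := LinearMap.congr_fun hπ 1
    simpa using h3
  let f : LieModule.Weight K H B → ℚ := fun χ => π (χ h₀)
  have hf : ∀ χ : LieModule.Weight K H B, f χ = π (χ h₀) := fun _ => rfl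
  let P : Set (LieModule.Weight K H B × LieModule.Weight K H B) :=
    {p | 0 < f p.1 ∧ 0 < f p.2 ∧ ∃ x ∈ LieAlgebra.rootSpace H p.1, ∃ y ∈ LieAlgebra.rootSpace H p.2,
      ⁅x, y⁆ ≠ 0}
  have hP : P.Nonempty := by
    refine ⟨(α, β), ?_, ?_, x, hx, y, hy, hxy⟩
    · rw [hf, ha, hπ1]; exact one_pos
    · rw [hf, hb, hπ1]; exact one_pos
  obtain ⟨⟨χ, ψ⟩, ⟨p1, p2, u, hu, v, hv, huv⟩, hmax⟩ :=
    Set.exists_max_image P (fun p => f p.1 + f p.2) (Set.toFinite P) hP
  simp only at p1 p2 hu hv hmax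
  have hw : ⁅u, v⁆ ∈ LieAlgebra.rootSpace H ((χ : H → K) + ψ) :=
    LieAlgebra.lie_mem_genWeightSpace_of_mem_genWeightSpace hu hv
  let θ : LieModule.Weight K H B := ⟨(χ : H → K) + ψ, by
    intro h3
    apply huv
    have h4 : ⁅u, v⁆ ∈ (⊥ : LieSubmodule K H B) := by
      rw [← h3]
      exact hw
    exact (LieSubmodule.mem_bot _).mp h4⟩
  have hθ : ((θ : LieModule.Weight K H B) : H → K) = (χ : H → K) + ψ := rfl
  have hfθ : f θ = f χ + f ψ := by
    rw [hf, hf, hf, ← map_add]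
    rfl
  have hwθ : ⁅u, v⁆ ∈ LieAlgebra.rootSpace H θ := by
    rw [hθ]
    exact hw
  have hχ : χ.IsNonZero := by
    intro h3
    have h4 : (χ : H → K) = 0 := h3
    rw [hf, h4] at p1
    simp at p1
  have hψ : ψ.IsNonZero := by
    intro h3
    have h4 : (ψ : H → K) = 0 := h3
    rw [hf, h4] at p2
    simp at p2
  have n1 : ψ ≠ χ := by
    rintro rfl
    exact huv (r2_self H ψ hψ hu hv)
  have n2 : ψ ≠ -χ := by
    rintro rfl
    rw [hf, LieModule.Weight.coe_neg, Pi.neg_apply, map_neg, ← hf] at p2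
    linarith
  have n3 : χ ≠ -ψ := by
    intro h3
    apply n2
    rw [h3, neg_neg]
  obtain ⟨g₁, a1, b1⟩ := r2_hh H χ ψ hχ hψ n1 n2 0
  obtain ⟨g₂, b2, a2⟩ := r2_hh H ψ χ hψ hχ n1.symm n3 0
  have hc : ∀ a b : H, ⁅(a : B), (b : B)⁆ = 0 := by
    intro a b
    have h3 : ⁅a, b⁆ = 0 := LieModule.IsTrivial.trivial a b
    have h4 := congrArg (fun z : H => (z : B)) h3
    simpa using h4
  have hact : ∀ (ξ : LieModule.Weight K H B) (w : B), w ∈ LieAlgebra.rootSpace H ξ → ∀ g : H,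
      ⁅w, -(g : B)⁆ = ξ g • w := by
    intro ξ w hw g
    rw [lie_neg, lie_skew]
    exact LieAlgebra.IsKilling.lie_eq_smul_of_mem_rootSpace hw g
  refine ⟨-(g₁ : B), -(g₂ : B), u, v, ?_, ?_, ?_, ?_, ?_, huv, ?_, ?_⟩
  · rw [neg_lie, lie_neg, hc, neg_zero, neg_zero]
  · rw [hact χ u hu, a1, one_smul]
  · rw [hact ψ v hv, b1, zero_smul]
  · rw [hact χ u hu, a2, zero_smul]
  · rw [hact ψ v hv, b2, one_smul]
  · by_contra hne
    have h3 := hmax (χ, θ) ⟨p1, by rw [hfθ]; linarith, u, hu, _, hwθ, hne⟩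
    simp only [hfθ] at h3
    linarith
  · by_contra hne
    have h3 := hmax (ψ, θ) ⟨p2, by rw [hfθ]; linarith, v, hv, _, hwθ, hne⟩
    simp only [hfθ] at h3
    linarith

end

end Pool.Agent.Lib.MP_240c17_al.Semi
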