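import Pool.Agent.Lib.MP_240c17_al.Semi.Spec

/-!
# Root spaces of independent roots commute (statement (C1) of `Semi/Spec.lean`)
-/

set_option autoImplicit false

namespace Pool.Agent.Lib.MP_240c17_al.Semi

universe u

open Pool.Agent.Lib.MP_240c17_al Pool.Agent.Lib.MP_240c17_al.Two Pool.Agent.Lib.MP_240c17_al.Tor

private theorem rp_pw {K : Type u} [Field K] {B : Type u} [LieRing B] [LieAlgebra K B] (h x : B)
    (s : K) (hs : ⁅h, x⁆ = s • x) (i : ℕ) : pw K h i x = (-s) ^ i • x := by
  induction i with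
  | zero => rw [pw_zero, pow_zero, one_smul]
  | succ i ih =>
    rw [pw_succ, ih, smul_lie, ← lie_skew, hs, ← neg_smul, smul_smul, ← pow_succ]

private theorem rp_poly {K : Type u} [Field K] [Infinite K] (m : ℕ) (c : ℕ → K)
    (h : ∀ τ : K, ∑ i ∈ Finset.range (m + 1), c i * τ ^ (m - i) = 0) : ∀ i ≤ m, c i = 0 := by
  intro i hi
  have h1 : (∑ j ∈ Finset.range (m + 1), Polynomial.C (c j) * Polynomial.X ^ (m - j) :
      Polynomial K) = 0 := by
    apply Polynomial.funext
    intro τ
    rw [Polynomial.eval_finsetSum, Polynomial.eval_zero, ← h τ]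
    exact Finset.sum_congr rfl fun j _ => by simp
  have h2 := congrArg (fun q => Polynomial.coeff q (m - i)) h1
  simp only [Polynomial.finsetSum_coeff, Polynomial.coeff_C_mul, Polynomial.coeff_X_pow,
    Polynomial.coeff_zero] at h2
  rw [Finset.sum_eq_single i] at h2
  · simpa using h2
  · intro j hj hji
    have hj' : j ≤ m := Nat.lt_succ_iff.mp (Finset.mem_range.mp hj)
    rw [if_neg (by omega), mul_zero]
  · intro hi'
    exact absurd (Finset.mem_range.mpr (Nat.lt_succ_of_le hi)) hi'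

private theorem rp_forms {K : Type u} [Field K] {H : Type u} [AddCommGroup H] [Module K H]
    (a b : H →ₗ[K] K) (ha : a ≠ 0) (hab : ∀ t : K, b ≠ t • a) (τ : K) :
    ∃ h : H, a h = 1 ∧ b h = τ := by
  obtain ⟨h₀, h1, h2⟩ : ∃ h₀, a h₀ = 0 ∧ b h₀ ≠ 0 := by
    by_contra hne
    push Not at hne
    have h3 : b ∈ Submodule.span K (Set.range fun _ : Unit => a) :=
      mem_span_of_iInf_ker_le_ker (by
        intro h hh
        rw [LinearMap.mem_ker]
        apply hne
        rw [Submodule.mem_iInf] at hh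
        exact LinearMap.mem_ker.mp (hh ()))
    rw [Set.range_const, Submodule.mem_span_singleton] at h3
    obtain ⟨t, ht⟩ := h3
    exact hab t ht.symm
  obtain ⟨g, hg⟩ : ∃ g, a g ≠ 0 := by
    by_contra hne
    push Not at hne
    exact ha (LinearMap.ext hne)
  refine ⟨(a g)⁻¹ • g + ((τ - (a g)⁻¹ * b g) / b h₀) • h₀, ?_, ?_⟩
  · simp [h1, inv_mul_cancel₀ hg]
  · rw [map_add, map_smul, map_smul, smul_eq_mul, smul_eq_mul, div_mul_cancel₀ _ h2]
    ring

theorem rootPair : RootPairProp.{u} := by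
  intro K _ _ _ B _ _ _ _ H _ m c hc hI α β hα hβ h1 h2 x hx y hy
  by_contra hxy
  obtain ⟨i, hi, hci⟩ := hc
  refine hci (rp_poly m c (fun τ => ?_) i hi)
  obtain ⟨h, ha, hb⟩ := rp_forms (LieModule.Weight.toLinear K H B α)
    (LieModule.Weight.toLinear K H B β)
    (by
      intro h0
      apply hα
      have h3 := congrArg (fun f : H →ₗ[K] K => (f : H → K)) h0
      show (α : H → K) = 0
      funext g
      exact congrFun h3 g)
    (by
      intro t h0
      have h3 := congrArg (fun f : H →ₗ[K] K => (f : H → K)) h0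
      rcases LieAlgebra.IsKilling.eq_neg_or_eq_of_eq_smul α β hβ t (by simpa using h3) with h4 | h4
      · exact h2 h4
      · exact h1 h4) τ
  have hx' : ⁅(h : B), x⁆ = (1 : K) • x := by
    have h3 := LieAlgebra.IsKilling.lie_eq_smul_of_mem_rootSpace hx h
    have h4 : α h = 1 := ha
    rw [h4] at h3
    exact h3
  have hy' : ⁅(h : B), y⁆ = τ • y := by
    have h3 := LieAlgebra.IsKilling.lie_eq_smul_of_mem_rootSpace hy h
    have h4 : β h = τ := hb
    rw [h4] at h3
    exact h3
  have h3 := hI x y h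
  have h4 : ∑ i ∈ Finset.range (m + 1), c i • ⁅pw K (h : B) i x, pw K (h : B) (m - i) y⁆ =
      ((-1) ^ m * ∑ i ∈ Finset.range (m + 1), c i * τ ^ (m - i)) • ⁅x, y⁆ := by
    rw [Finset.mul_sum, Finset.sum_smul]
    refine Finset.sum_congr rfl fun j hj => ?_
    have hj' : j ≤ m := Nat.lt_succ_iff.mp (Finset.mem_range.mp hj)
    rw [rp_pw _ _ _ hx', rp_pw _ _ _ hy', smul_lie, lie_smul, smul_smul, smul_smul]
    congr 1
    have h5 : (-1 : K) ^ m = (-1) ^ j * (-1) ^ (m - j) := by rw [← pow_add, Nat.add_sub_cancel' hj']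
    rw [h5, neg_pow τ]
    ring
  rw [h4] at h3
  rcases smul_eq_zero.mp h3 with h5 | h5
  · rcases mul_eq_zero.mp h5 with h6 | h6
    · exact absurd h6 (pow_ne_zero _ (neg_ne_zero.mpr one_ne_zero))
    · exact h6
  · exact absurd h5 hxy

end Pool.Agent.Lib.MP_240c17_al.Semi
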