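import Pool.Agent.Lib.MP_240c17_al.Semi.Spec

/-!
# The homomorphism from `sl₂` given by a triple (statement (C3) of `Semi/Spec.lean`)
-/

set_option autoImplicit false

namespace Pool.Agent.Lib.MP_240c17_al.Semi

universe u

open Pool.Agent.Lib.MP_240c17_al Pool.Agent.Lib.MP_240c17_al.Two Pool.Agent.Lib.MP_240c17_al.Tor

private theorem sh_tr {k : Type u} [Field k] (a : sl2 k) : a.1 1 1 = - a.1 0 0 := by
  have h : Matrix.trace a.1 = 0 := a.2
  rw [Matrix.trace_fin_two] at h
  linear_combination h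

private theorem sh_br {k : Type u} [Field k] (a b : sl2 k) :
    (⁅a, b⁆ : sl2 k).1 = a.1 * b.1 - b.1 * a.1 := rfl

/-- The homomorphism. -/
private noncomputable def shHom {k : Type u} [Field k] {B : Type u} [LieRing B] [LieAlgebra k B]
    (h e f : B) (ht : IsSl2Triple h e f) : sl2 k →ₗ⁅k⁆ B where
  toFun a := a.1 0 0 • h + a.1 0 1 • e + a.1 1 0 • f
  map_add' a b := by
    show (a.1 + b.1) 0 0 • h + (a.1 + b.1) 0 1 • e + (a.1 + b.1) 1 0 • f = _
    simp only [Matrix.add_apply, add_smul]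
    abel
  map_smul' c a := by
    show (c • a.1) 0 0 • h + (c • a.1) 0 1 • e + (c • a.1) 1 0 • f = _
    simp only [Matrix.smul_apply, smul_add, smul_smul, smul_eq_mul, RingHom.id_apply]
  map_lie' := by
    intro a b
    have h1 : ⁅h, e⁆ = (2 : k) • e := by rw [ht.lie_h_e_nsmul, two_smul, two_smul]
    have h2 : ⁅h, f⁆ = -((2 : k) • f) := by rw [ht.lie_h_f_nsmul, two_smul, two_smul]
    have h3 : ⁅e, f⁆ = h := ht.lie_e_f
    have h1' : ⁅e, h⁆ = -((2 : k) • e) := by rw [← lie_skew, h1]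
    have h2' : ⁅f, h⁆ = (2 : k) • f := by rw [← lie_skew, h2, neg_neg]
    have h3' : ⁅f, e⁆ = -h := by rw [← lie_skew, h3]
    show (⁅a, b⁆ : sl2 k).1 0 0 • h + (⁅a, b⁆ : sl2 k).1 0 1 • e + (⁅a, b⁆ : sl2 k).1 1 0 • f =
      ⁅a.1 0 0 • h + a.1 0 1 • e + a.1 1 0 • f, b.1 0 0 • h + b.1 0 1 • e + b.1 1 0 • f⁆
    rw [sh_br]
    simp only [Matrix.sub_apply, Matrix.mul_apply, Fin.sum_univ_two, sh_tr a, sh_tr b, lie_add,
      add_lie, lie_smul, smul_lie, lie_self, h1, h2, h3, h1', h2', h3']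
    module

theorem sl2Hom : Sl2HomProp.{u} := by
  intro k _ B _ _ h e f ht
  have happ : ∀ a : sl2 k, shHom h e f ht a = a.1 0 0 • h + a.1 0 1 • e + a.1 1 0 • f :=
    fun a => rfl
  have hm : ∀ m : Matrix (Fin 2) (Fin 2) k, Matrix.trace m = 0 →
      m ∈ LieAlgebra.SpecialLinear.sl (Fin 2) k := fun m hm => hm
  refine ⟨shHom h e f ht, ⟨⟨!![1, 0; 0, -1], hm _ (by simp [Matrix.trace_fin_two])⟩, ?_⟩,
    ⟨⟨!![0, 1; 0, 0], hm _ (by simp [Matrix.trace_fin_two])⟩, ?_⟩,
    ⟨⟨!![0, 0; 1, 0], hm _ (by simp [Matrix.trace_fin_two])⟩, ?_⟩, ?_, ?_⟩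
  · rw [happ]; simp
  · rw [happ]; simp
  · rw [happ]; simp
  · intro x
    rw [happ]
    have hs : ∀ b ∈ ({h, e, f} : Set B), b ∈ Submodule.span k ({h, e, f} : Set B) :=
      fun b hb => Submodule.subset_span hb
    exact Submodule.add_mem _ (Submodule.add_mem _ (Submodule.smul_mem _ _ (hs h (by simp)))
      (Submodule.smul_mem _ _ (hs e (by simp)))) (Submodule.smul_mem _ _ (hs f (by simp)))
  · intro _
    have h1 : ⁅h, e⁆ = (2 : k) • e := by rw [ht.lie_h_e_nsmul, two_smul, two_smul]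
    have h2 : ⁅h, f⁆ = -((2 : k) • f) := by rw [ht.lie_h_f_nsmul, two_smul, two_smul]
    have h20 : (2 : k) ≠ 0 := two_ne_zero
    have hh : h ≠ 0 := ht.h_ne_zero
    have he : e ≠ 0 := by
      intro h0
      apply hh
      rw [← ht.lie_e_f, h0, zero_lie]
    have hf : f ≠ 0 := by
      intro h0
      apply hh
      rw [← ht.lie_e_f, h0, lie_zero]
    rw [injective_iff_map_eq_zero]
    intro a ha
    rw [happ] at ha
    have hb : (2 * a.1 0 1) • e - (2 * a.1 1 0) • f = 0 := by
      have h5 := congrArg (fun z => ⁅h, z⁆) ha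
      simp only [lie_add, lie_smul, lie_self, h1, h2, lie_zero] at h5
      rw [← h5]
      module
    have hc : (4 * a.1 0 1) • e + (4 * a.1 1 0) • f = 0 := by
      have h5 := congrArg (fun z => ⁅h, z⁆) hb
      simp only [lie_sub, lie_smul, h1, h2, lie_zero] at h5
      rw [← h5]
      module
    have hd : a.1 0 1 = 0 := by
      have h5 : (8 * a.1 0 1) • e = 0 := by
        have : (8 * a.1 0 1) • e = (2 : k) • ((2 * a.1 0 1) • e - (2 * a.1 1 0) • f) +
          ((4 * a.1 0 1) • e + (4 * a.1 1 0) • f) := by module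
        rw [this, hb, hc]; simp
      rcases smul_eq_zero.mp h5 with h6 | h6
      · rcases mul_eq_zero.mp h6 with h7 | h7
        · exact absurd h7 (by norm_num)
        · exact h7
      · exact absurd h6 he
    have hg : a.1 1 0 = 0 := by
      rw [hd] at hb
      have h5 : (2 * a.1 1 0) • f = 0 := by
        rw [← neg_eq_zero, ← hb]; module
      rcases smul_eq_zero.mp h5 with h6 | h6
      · rcases mul_eq_zero.mp h6 with h7 | h7
        · exact absurd h7 h20
        · exact h7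
      · exact absurd h6 hf
    have hi : a.1 0 0 = 0 := by
      rw [hd, hg, zero_smul, zero_smul, add_zero, add_zero] at ha
      rcases smul_eq_zero.mp ha with h6 | h6
      · exact h6
      · exact absurd h6 hh
    apply Subtype.ext
    ext i j
    fin_cases i <;> fin_cases j
    · exact hi
    · exact hd
    · exact hg
    · show a.1 1 1 = 0
      rw [sh_tr a, hi, neg_zero]

end Pool.Agent.Lib.MP_240c17_al.Semi
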