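import Pool.Agent.Lib.MP_240c17_al.Semi.Spec

/-!
Identities of a sum of commuting copies of `sl₂` (C4).
-/

set_option autoImplicit false

namespace Pool.Agent.Lib.MP_240c17_al.Semi

universe u

open Pool.Agent.Lib.MP_240c17_al Pool.Agent.Lib.MP_240c17_al.Two Pool.Agent.Lib.MP_240c17_al.Tor

section

variable {k : Type u} [Field k] {K : Type u} [Field K] {A B : Type u} [LieRing A]
  [LieAlgebra k A] [LieRing B] [LieAlgebra k B] [LieAlgebra K B]

private theorem si_lie (j : A →ₗ⁅k⁆ B) {x y : B} (hx : x ∈ Submodule.span K (Set.range j))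
    (hy : y ∈ Submodule.span K (Set.range j)) : ⁅x, y⁆ ∈ Submodule.span K (Set.range j) := by
  have h1 : ∀ a : A, Submodule.span K (Set.range j) ≤
      (Submodule.span K (Set.range j)).comap (LieAlgebra.ad K B (j a) : B →ₗ[K] B) := by
    intro a
    rw [Submodule.span_le]
    rintro _ ⟨b, rfl⟩
    refine Submodule.subset_span ⟨⁅a, b⁆, ?_⟩
    rw [LieHom.map_lie]
    rfl
  have h2 : Submodule.span K (Set.range j) ≤
      (Submodule.span K (Set.range j)).comap (adr K y) := by
    rw [Submodule.span_le]
    rintro _ ⟨a, rfl⟩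
    exact h1 a hy
  exact h2 hx

variable [Algebra k K] [IsScalarTower k K B]

private theorem si_smul (j : A →ₗ⁅k⁆ B) (c : k) {x : B}
    (hx : x ∈ Submodule.span K (Set.range j)) : c • x ∈ Submodule.span K (Set.range j) := by
  rw [← algebraMap_smul K c x]
  exact Submodule.smul_mem _ _ hx

/-- the span over the large field as a Lie algebra over the small field -/
private def siSub (K : Type u) [Field K] [LieAlgebra K B] [Algebra k K] [IsScalarTower k K B]
    (j : A →ₗ⁅k⁆ B) : LieSubalgebra k B where
  carrier := Submodule.span K (Set.range j)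
  add_mem' := fun ha hb => Submodule.add_mem _ ha hb
  zero_mem' := Submodule.zero_mem _
  smul_mem' := fun c _ hx => si_smul j c hx
  lie_mem' := fun hx hy => si_lie j hx hy

private theorem si_mem (j : A →ₗ⁅k⁆ B) (x : B) :
    x ∈ siSub K j ↔ x ∈ Submodule.span K (Set.range j) := Iff.rfl

private instance siModule (j : A →ₗ⁅k⁆ B) : Module K (siSub K j) :=
  (inferInstance : Module K (Submodule.span K (Set.range j)))

private theorem si_coe_smul (j : A →ₗ⁅k⁆ B) (c : K) (x : siSub K j) :
    ((c • x : siSub K j) : B) = c • (x : B) := rfl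

private instance siAlg (j : A →ₗ⁅k⁆ B) : LieAlgebra K (siSub K j) where
  lie_smul c x y := Subtype.ext (lie_smul c (x : B) (y : B))

private instance siTower (j : A →ₗ⁅k⁆ B) : IsScalarTower k K (siSub K j) where
  smul_assoc a b x := Subtype.ext (smul_assoc a b (x : B))

private theorem si_id (h1 : ExtProp.{u}) [Infinite k] (j : A →ₗ⁅k⁆ B) {g : FreeLieAlgebra k ℕ}
    (hg : g ∈ idOf k A) (ρ : ℕ → B) (hρ : ∀ i, ρ i ∈ Submodule.span K (Set.range j)) :
    FreeLieAlgebra.lift k ρ g = 0 := by
  let j' : A →ₗ⁅k⁆ siSub K j :=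
    { toFun := fun a => ⟨j a, Submodule.subset_span ⟨a, rfl⟩⟩
      map_add' := fun a b => Subtype.ext (map_add j a b)
      map_smul' := fun c a => Subtype.ext (map_smul j c a)
      map_lie' := fun {a b} => Subtype.ext (LieHom.map_lie j a b) }
  let ι : (siSub K j) →ₗ[K] B :=
    { toFun := fun x => (x : B)
      map_add' := fun _ _ => rfl
      map_smul' := fun _ _ => rfl }
  have hspan : Submodule.span K (Set.range j') = ⊤ := by
    rw [eq_top_iff]
    intro x _
    have h2 : (Submodule.span K (Set.range j')).map ι = Submodule.span K (Set.range j) := by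
      rw [Submodule.map_span]
      congr 1
      ext b
      constructor
      · rintro ⟨_, ⟨a, rfl⟩, rfl⟩
        exact ⟨a, rfl⟩
      · rintro ⟨a, rfl⟩
        exact ⟨j' a, ⟨a, rfl⟩, rfl⟩
    have h3 : (x : B) ∈ (Submodule.span K (Set.range j')).map ι := by
      rw [h2]
      exact x.2
    obtain ⟨w, hw, hwx⟩ := h3
    have h4 : w = x := Subtype.ext hwx
    rw [← h4]
    exact hw
  have h2 := h1 k K A (siSub K j) j' hspan hg (fun i => ⟨ρ i, hρ i⟩)
  have h3 : FreeLieAlgebra.lift k ρ = (siSub K j).incl.comp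
      (FreeLieAlgebra.lift k (fun i => (⟨ρ i, hρ i⟩ : siSub K j))) := by
    apply FreeLieAlgebra.hom_ext
    intro i
    rw [LieHom.comp_apply, FreeLieAlgebra.lift_of_apply, FreeLieAlgebra.lift_of_apply]
    rfl
  rw [h3, LieHom.comp_apply, h2, map_zero]

end

private theorem si_comm {K : Type u} [Field K] {B : Type u} [LieRing B] [LieAlgebra K B]
    {S T : Set B} (h : ∀ a ∈ S, ∀ b ∈ T, ⁅a, b⁆ = 0) {x y : B} (hx : x ∈ Submodule.span K S)
    (hy : y ∈ Submodule.span K T) : ⁅x, y⁆ = 0 := by
  have h1 : ∀ a ∈ S, Submodule.span K T ≤ LinearMap.ker (LieAlgebra.ad K B a : B →ₗ[K] B) := by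
    intro a ha
    rw [Submodule.span_le]
    intro b hb
    exact h a ha b hb
  have h2 : Submodule.span K S ≤ LinearMap.ker (adr K y) := by
    rw [Submodule.span_le]
    intro a ha
    exact h1 a ha hy
  exact h2 hx

theorem sl2Id (h1 : ExtProp.{u}) (h2 : Sl2HomProp.{u}) : Sl2IdProp.{u} := by
  classical
  intro k _ _ K _ _ B _ _ _ _ r h e f htr hcomm hspan g hg ρ
  have hj : ∀ s, ∃ j : sl2 k →ₗ⁅k⁆ B, h s ∈ Set.range j ∧ e s ∈ Set.range j ∧
      f s ∈ Set.range j ∧ (∀ x, j x ∈ Submodule.span k ({h s, e s, f s} : Set B)) := by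
    intro s
    obtain ⟨j, a1, a2, a3, a4, -⟩ := h2 k B (h s) (e s) (f s) (htr s)
    exact ⟨j, a1, a2, a3, a4⟩
  choose j jh je jf jspan using hj
  have hle : ∀ s, ∀ x ∈ Submodule.span K (Set.range (j s)),
      x ∈ Submodule.span K ({h s, e s, f s} : Set B) := by
    intro s
    have h3 : Submodule.span K (Set.range (j s)) ≤
        Submodule.span K ({h s, e s, f s} : Set B) := by
      rw [Submodule.span_le]
      rintro _ ⟨x, rfl⟩
      exact Submodule.span_le_restrictScalars k K _ (jspan s x)
    exact h3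
  have hcm : ∀ s s', s ≠ s' → ∀ x ∈ Submodule.span K (Set.range (j s)),
      ∀ y ∈ Submodule.span K (Set.range (j s')), ⁅x, y⁆ = 0 := by
    intro s s' hss x hx y hy
    exact si_comm (hcomm s s' hss) (hle s x hx) (hle s' y hy)
  -- decomposition
  have hdec : ∀ b : B, ∃ c : Fin r → B, (∀ s, c s ∈ Submodule.span K (Set.range (j s))) ∧
      b = ∑ s, c s := by
    let Y : Submodule K B :=
      { carrier := {b | ∃ c : Fin r → B, (∀ s, c s ∈ Submodule.span K (Set.range (j s))) ∧
          b = ∑ s, c s}
        add_mem' := by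
          rintro a b ⟨c, hc, rfl⟩ ⟨d, hd, rfl⟩
          exact ⟨fun s => c s + d s, fun s => Submodule.add_mem _ (hc s) (hd s),
            Finset.sum_add_distrib.symm⟩
        zero_mem' := ⟨fun _ => 0, fun s => Submodule.zero_mem _, by simp⟩
        smul_mem' := by
          rintro t a ⟨c, hc, rfl⟩
          exact ⟨fun s => t • c s, fun s => Submodule.smul_mem _ _ (hc s), Finset.smul_sum⟩ }
    have hone : ∀ s, ∀ b ∈ Set.range (j s), b ∈ Y := by
      intro s b hb
      refine ⟨Pi.single s b, fun s' => ?_, ?_⟩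
      · by_cases hs : s' = s
        · subst hs
          rw [Pi.single_eq_same]
          exact Submodule.subset_span hb
        · rw [Pi.single_eq_of_ne hs]
          exact Submodule.zero_mem _
      · rw [Finset.sum_pi_single']
        simp
    have hY : (⊤ : Submodule K B) ≤ Y := by
      rw [← hspan, Submodule.span_le]
      rintro _ ((⟨s, rfl⟩ | ⟨s, rfl⟩) | ⟨s, rfl⟩)
      · exact hone s _ (jh s)
      · exact hone s _ (je s)
      · exact hone s _ (jf s)
    intro b
    exact hY (Submodule.mem_top : b ∈ (⊤ : Submodule K B))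
  choose c hc hc' using fun i => hdec (ρ i)
  -- the sum of the homomorphisms
  have hmem : ∀ s w, FreeLieAlgebra.lift k (fun i => c i s) w ∈
      Submodule.span K (Set.range (j s)) := by
    intro s w
    exact lift_mem (siSub K (j s)) (fun i => c i s) (fun i => hc i s) w
  let ψ : FreeLieAlgebra k ℕ →ₗ⁅k⁆ B :=
    { toFun := fun w => ∑ s, FreeLieAlgebra.lift k (fun i => c i s) w
      map_add' := by
        intro a b
        rw [← Finset.sum_add_distrib]
        exact Finset.sum_congr rfl fun s _ => map_add _ a b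
      map_smul' := by
        intro t a
        rw [Finset.smul_sum]
        exact Finset.sum_congr rfl fun s _ => map_smul _ t a
      map_lie' := by
        intro a b
        change ∑ s, FreeLieAlgebra.lift k (fun i => c i s) ⁅a, b⁆ =
          ⁅∑ s, FreeLieAlgebra.lift k (fun i => c i s) a,
            ∑ s, FreeLieAlgebra.lift k (fun i => c i s) b⁆
        rw [sum_lie]
        refine Finset.sum_congr rfl fun s _ => ?_
        rw [lie_sum, Finset.sum_eq_single s]
        · rw [LieHom.map_lie]
        · intro s' _ hs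
          exact hcm s s' (Ne.symm hs) _ (hmem s a) _ (hmem s' b)
        · intro hs
          exact absurd (Finset.mem_univ s) hs }
  have hψ : FreeLieAlgebra.lift k ρ = ψ := by
    apply FreeLieAlgebra.hom_ext
    intro i
    change FreeLieAlgebra.lift k ρ (FreeLieAlgebra.of k i) =
      ∑ s, FreeLieAlgebra.lift k (fun i => c i s) (FreeLieAlgebra.of k i)
    rw [FreeLieAlgebra.lift_of_apply, hc' i]
    refine Finset.sum_congr rfl fun s _ => ?_
    rw [FreeLieAlgebra.lift_of_apply]
  rw [hψ]
  change ∑ s, FreeLieAlgebra.lift k (fun i => c i s) g = 0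
  refine Finset.sum_eq_zero fun s _ => ?_
  exact si_id (K := K) h1 (j s) hg _ (fun i => hc i s)

end Pool.Agent.Lib.MP_240c17_al.Semi
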