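import Pool.Agent.Lib.MP_240c17_al.Semi.Spec

set_option autoImplicit false

namespace Pool.Agent.Lib.MP_240c17_al.Semi

universe u

open Pool.Agent.Lib.MP_240c17_al Pool.Agent.Lib.MP_240c17_al.Two Pool.Agent.Lib.MP_240c17_al.Tor

private theorem sl2_tr {k : Type u} [Field k] (a : sl2 k) :
    a.val 1 1 = - a.val 0 0 := by
  have h : Matrix.trace a.val = 0 := LinearMap.mem_ker.1 a.2
  rw [Matrix.trace_fin_two] at h
  linear_combination h

private theorem sl2_ext {k : Type u} [Field k] {a b : sl2 k}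
    (h00 : a.val 0 0 = b.val 0 0)
    (h01 : a.val 0 1 = b.val 0 1)
    (h10 : a.val 1 0 = b.val 1 0) : a = b := by
  apply Subtype.ext
  ext i j
  fin_cases i <;> fin_cases j
  · exact h00
  · exact h01
  · exact h10
  · have ha := sl2_tr a
    have hb := sl2_tr b
    show a.val 1 1 = b.val 1 1
    rw [ha, hb, h00]

private theorem sl2_lie {k : Type u} [Field k] (a b : sl2 k) :
    (⁅a, b⁆ : sl2 k).val =
      a.val * b.val - b.val * a.val := rfl

private noncomputable def tr2 (k : Type u) [Field k] : sl2 k →ₗ[k] sl2 k →ₗ[k] k :=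
  LinearMap.mk₂ k (fun a b => 2 * Matrix.trace (a.val * b.val))
    (by
      intro a a' b
      show 2 * Matrix.trace ((a.val + a'.val) * b.val) = _
      rw [add_mul, Matrix.trace_add]; ring)
    (by
      intro c a b
      show 2 * Matrix.trace ((c • a.val) * b.val) = c * (2 * _)
      rw [smul_mul_assoc, Matrix.trace_smul, smul_eq_mul]; ring)
    (by
      intro a b b'
      show 2 * Matrix.trace (a.val * (b.val + b'.val)) = _
      rw [mul_add, Matrix.trace_add]; ring)
    (by
      intro c a b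
      show 2 * Matrix.trace (a.val * (c • b.val)) = c * (2 * _)
      rw [mul_smul_comm, Matrix.trace_smul, smul_eq_mul]; ring)

private theorem tr2_apply {k : Type u} [Field k] (a b : sl2 k) :
    tr2 k a b = 2 * (2 * (a.val 0 0 * b.val 0 0) +
      a.val 0 1 * b.val 1 0 +
      a.val 1 0 * b.val 0 1) := by
  have h : tr2 k a b = 2 * Matrix.trace (a.val * b.val) := rfl
  rw [h, Matrix.trace_fin_two, Matrix.mul_apply, Matrix.mul_apply, Fin.sum_univ_two,
    Fin.sum_univ_two, sl2_tr a, sl2_tr b]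
  ring

private theorem lie00 {k : Type u} [Field k] (a b : sl2 k) :
    (⁅a, b⁆ : sl2 k).val 0 0 =
      a.val 0 1 * b.val 1 0 -
      a.val 1 0 * b.val 0 1 := by
  rw [sl2_lie, Matrix.sub_apply, Matrix.mul_apply, Matrix.mul_apply, Fin.sum_univ_two,
    Fin.sum_univ_two]
  ring

private theorem lie01 {k : Type u} [Field k] (a b : sl2 k) :
    (⁅a, b⁆ : sl2 k).val 0 1 =
      2 * (a.val 0 0 * b.val 0 1 -
      a.val 0 1 * b.val 0 0) := by
  rw [sl2_lie, Matrix.sub_apply, Matrix.mul_apply, Matrix.mul_apply, Fin.sum_univ_two,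
    Fin.sum_univ_two, sl2_tr a, sl2_tr b]
  ring

private theorem lie10 {k : Type u} [Field k] (a b : sl2 k) :
    (⁅a, b⁆ : sl2 k).val 1 0 =
      2 * (a.val 1 0 * b.val 0 0 -
      a.val 0 0 * b.val 1 0) := by
  rw [sl2_lie, Matrix.sub_apply, Matrix.mul_apply, Matrix.mul_apply, Fin.sum_univ_two,
    Fin.sum_univ_two, sl2_tr a, sl2_tr b]
  ring

theorem sl2Vp : Sl2VpProp.{u} := by
  intro k _
  refine ⟨tr2 k, ?_, ?_, ?_⟩
  · intro a b
    rw [tr2_apply, tr2_apply]
    ring
  · intro a b c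
    rw [tr2_apply, tr2_apply, lie00, lie01, lie10, lie00, lie01, lie10]
    ring
  · intro a b c
    have hsub : ∀ (x y : sl2 k) (i j : Fin 2), (x - y : sl2 k).val i j =
        x.val i j - y.val i j := fun _ _ _ _ => rfl
    have hsm : ∀ (r : k) (x : sl2 k) (i j : Fin 2), (r • x : sl2 k).val i j =
        r * x.val i j := fun _ _ _ _ => rfl
    refine sl2_ext ?_ ?_ ?_
    · rw [hsub, hsm, hsm, tr2_apply, tr2_apply, lie00, lie01, lie10]
      ring
    · rw [hsub, hsm, hsm, tr2_apply, tr2_apply, lie01, lie00, lie01]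
      ring
    · rw [hsub, hsm, hsm, tr2_apply, tr2_apply, lie10, lie00, lie10]
      ring

end Pool.Agent.Lib.MP_240c17_al.Semi
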