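import Pool.Agent.Lib.MP_240c17_al.Func
import Pool.Agent.Lib.MP_240c17_al.Fin
import Pool.Agent.Lib.MP_240c17_al.Tor.Spec

/-!
# Varieties generated by finite dimensional semisimple Lie algebras: statements

Theorem: let `k` be a field of characteristic zero and `V` a variety generated by nonzero finite dimensional
semisimple Lie algebras. All relatively finitely presented algebras of `V` are residually finite dimensional if and only
if `V` is the variety of `sl₂(k)`.

Every lemma is a `Prop`; the proof is in the docstring; the files proving them are independent: used statements are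
hypotheses. Notation (see `Two/Basic.lean`, `Two/Spec.lean`, `Tor/Base.lean`, please read these first): `adr k y a = ⁅a, y⁆`,
`pw k y e a = ⁅…⁅a, y⁆ …, y⁆` (`e` times), `D1 k F` the derived ideal, `mom k x μ = ∑ μ ^ i x i`, `gen φ S` the smallest
subspace containing `S` and stable under the operators `φ i`, `qMk T` the quotient map.
-/

set_option autoImplicit false

namespace Pool.Agent.Lib.MP_240c17_al.Semi

universe u v

open Pool.Agent.Lib.MP_240c17_al Pool.Agent.Lib.MP_240c17_al.Two Pool.Agent.Lib.MP_240c17_al.Tor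
open scoped TensorProduct

/-- The identities of the Lie algebra `A` (in the variables `x₀, x₁, x₂, …`). -/
def idOf (k : Type u) [Field k] (A : Type v) [LieRing A] [LieAlgebra k A] :
    Set (FreeLieAlgebra k ℕ) :=
  {g | ∀ ρ : ℕ → A, FreeLieAlgebra.lift k ρ g = 0}

/-- `sl₂(k)`. -/
abbrev sl2 (k : Type u) [Field k] : Type u := LieAlgebra.SpecialLinear.sl (Fin 2) k

/-- All relatively finitely presented algebras are residually finite dimensional. -/
def Good (k : Type u) [Field k] (Id : Set (FreeLieAlgebra k ℕ)) : Prop :=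
  ∀ (L : Type u) [LieRing L] [LieAlgebra k L], RelFinitelyPresented Id L →
    ResiduallyFiniteDimensional k L

/-- A Lie algebra with the identity of the vector product in dimension three. -/
structure VP (k : Type u) [Field k] (A : Type u) [LieRing A] [LieAlgebra k A]
    (t : A →ₗ[k] A →ₗ[k] k) : Prop where
  symm : ∀ a b, t a b = t b a
  inv : ∀ a b c, t ⁅a, b⁆ c = t a ⁅b, c⁆
  vp : ∀ a b c, ⁅a, ⁅b, c⁆⁆ = t a b • c - t a c • b

/-! ## A. `sl₂` -/

/-- (A1) PROOF. `t a b = 2 * trace (a * b)` (as a bilinear map, e.g. `LinearMap.mk₂`). Everything is a polynomial identity in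
the entries of `2 × 2` matrices of trace zero: for matrices `a b + b a = trace (a b) • 1` if the traces of `a`, `b` are zero
(`a 1 1 = - a 0 0`); compare the entries. -/
def Sl2VpProp : Prop := ∀ (k : Type u) [Field k], ∃ t : sl2 k →ₗ[k] sl2 k →ₗ[k] k, VP k (sl2 k) t

/-- (A2) The relatively free algebra of the variety of `A` is separated by its homomorphisms to `A`. PROOF. `ev ω` is induced by
`FreeLieAlgebra.lift k ω`, whose kernel contains `verbalIdeal (idOf k A) n` (`relFree_lift` in `Two/RelFree.lean`, because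
`A` is in the variety). Let `f = qMk w` with `FreeLieAlgebra.lift k ω w = 0` for all `ω : Fin n → A`. Let
`g : FreeLieAlgebra k ℕ` be the image of `w` under `of i ↦ of (i : ℕ)`. `g ∈ idOf k A`, since `lift ρ g = lift (fun i => ρ i) w`
(`FreeLieAlgebra.hom_ext`). Let `ρ : ℕ → FreeLieAlgebra k (Fin n)`, `ρ i = of i` if `i < n`, else `0`. Then `w = lift ρ g`
is in the verbal ideal, so `f = 0`. -/
def EvProp : Prop :=
  ∀ (k : Type u) [Field k] (A : Type u) [LieRing A] [LieAlgebra k A] (n : ℕ),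
    ∃ ev : (Fin n → A) → ((FreeLieAlgebra k (Fin n) ⧸ verbalIdeal (idOf k A) n) →ₗ⁅k⁆ A),
      (∀ ω i, ev ω (qMk (verbalIdeal (idOf k A) n) (FreeLieAlgebra.of k i)) = ω i) ∧
      ∀ f, (∀ ω, ev ω f = 0) → f = 0

/-- (A3) PROOF. For `y, y' : F` and `g ∈ D1` there is a unique `g' ∈ D1` with `ev ω g' = t (ev ω y) (ev ω y') • ev ω g` for all `ω`.
Uniqueness: `hinj`. Existence: for fixed `y, y'` the set of the `g` for which `g'` exists is a subspace, so let
`g = ⁅a, b⁆` (`D1` is spanned by these). For `y = y'` take `g' = ⁅y, ⁅y, ⁅a, b⁆⁆⁆ - ⁅⁅y, a⁆, ⁅y, b⁆⁆ ∈ D1`. Indeed (writing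
`y, a, b` for their images in `A`) `⁅y, ⁅y, c⁆⁆ = t y y • c - t y c • y` with `c = ⁅a, b⁆`, and
`⁅⁅y, a⁆, ⁅y, b⁆⁆ = t ⁅y, a⁆ y • b - t ⁅y, a⁆ b • y = - t y ⁅a, b⁆ • y`, since `t ⁅y, a⁆ y = t y ⁅a, y⁆ = t ⁅a, y⁆ y = t a ⁅y, y⁆ = 0`. For
`y ≠ y'` use `t y y' = 2⁻¹ * (t (y + y') (y + y') - t y y - t y' y')`. Let `π : F → D1` be a linear projection onto the subspace
`D1` (`Submodule.exists_isCompl` or `LinearMap.exists_leftInverse_of_injective`); `M y y' g` is the `g'` for `π g`. It is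
linear in `y`, `y'`, `g` by uniqueness (`LinearMap.mk₂` and so on). -/
def MulProp : Prop :=
  ∀ (k : Type u) [Field k], (2 : k) ≠ 0 → ∀ (A : Type u) [LieRing A] [LieAlgebra k A]
    (t : A →ₗ[k] A →ₗ[k] k), VP k A t → ∀ (F : Type u) [LieRing F] [LieAlgebra k F] (Ω : Type u)
    (ev : Ω → (F →ₗ⁅k⁆ A)), (∀ f, (∀ ω, ev ω f = 0) → f = 0) →
    ∃ M : F →ₗ[k] F →ₗ[k] Module.End k F, (∀ y y', M y y' = M y' y) ∧
      (∀ y y' g, M y y' g ∈ D1 k F) ∧
      ∀ y y', ∀ g ∈ D1 k F, ∀ ω, ev ω (M y y' g) = t (ev ω y) (ev ω y') • ev ω g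

/-- (A4) PROOF. By `hinj` it is enough to check the equations after applying `ev ω`. The first two are clear (`⁅g, z⁆ ∈ D1`). The
third: in `A`, `⁅⁅⁅g, y⁆, y⁆, y⁆ = - ⁅y, ⁅y, ⁅y, g⁆⁆⁆ = - (t y y • ⁅y, g⁆ - t y ⁅y, g⁆ • y) = t y y • ⁅g, y⁆`, since
`t y ⁅y, g⁆ = t ⁅y, y⁆ g = 0`. -/
def MulRelProp : Prop :=
  ∀ (k : Type u) [Field k] (A : Type u) [LieRing A] [LieAlgebra k A]
    (t : A →ₗ[k] A →ₗ[k] k), VP k A t → ∀ (F : Type u) [LieRing F] [LieAlgebra k F] (Ω : Type u)
    (ev : Ω → (F →ₗ⁅k⁆ A)), (∀ f, (∀ ω, ev ω f = 0) → f = 0) →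
    ∀ M : F →ₗ[k] F →ₗ[k] Module.End k F, (∀ y y' g, M y y' g ∈ D1 k F) →
      (∀ y y', ∀ g ∈ D1 k F, ∀ ω, ev ω (M y y' g) = t (ev ω y) (ev ω y') • ev ω g) →
      (∀ y y', ∀ g ∈ D1 k F, ∀ z, M y y' ⁅g, z⁆ = ⁅M y y' g, z⁆) ∧
      (∀ y y' z z', ∀ g ∈ D1 k F, M y y' (M z z' g) = M z z' (M y y' g)) ∧
      ∀ y, ∀ g ∈ D1 k F, pw k y 1 (M y y g) = pw k y 3 g

/-- (A5) PROOF (uses `HilbertProp`, proved in `Two/Hilbert.lean`: `hilbert mod_`). Let `X = Ω → A` (a vector space), `φ (i, j)` the operator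
`f ↦ (fun ω => t (ev ω (x i)) (ev ω (x j)) • f ω)`; they commute. Let `Φ : F → X`, `Φ f = (fun ω => ev ω f)`, linear and injective. Let
`Z = gen φ S₀`, `S₀` = the finite set of the `Φ (x i)` and `Φ ⁅x i, x j⁆`. CLAIM: `Φ f ∈ Z` for all `f`. The set
`{f : X | fun ω => ⁅ev ω (x l), f ω⁆ ∈ Z}` is a `φ`-stable subspace and contains `S₀`, because
`⁅x l, ⁅x i, x j⁆⁆ = t (x l) (x i) • x j - t (x l) (x j) • x i` (in `A`). So `Y = {f : F | Φ f ∈ Z}` is a subspace containing
the `x i` and stable under the brackets with the `x l`; hence `Y = ⊤`, as `F` is spanned by the words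
`wd (x i) (ls.map x)` (`words_span` in `Tor/Base.lean`). Now let `U ≤ D1` be stable under the `M (x i) (x j)`. `Φ (U)` (`Submodule.map`) is stable
under `φ` and `≤ Z`. `HilbertProp` with `Y = ⊥`, `Z`, `U := Φ U` gives a finite set `S'` with `gen φ S' = Φ U`; let `S ⊆ U` be
finite with `Φ S = S'`. Then `gen M S = U`: `Φ (gen M S)` is `φ`-stable (`gen M S ≤ U ≤ D1`) and contains `S'`. -/
def NoethProp : Prop :=
  ∀ (k : Type u) [Field k] (A : Type u) [LieRing A] [LieAlgebra k A]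
    (t : A →ₗ[k] A →ₗ[k] k), VP k A t → ∀ (F : Type u) [LieRing F] [LieAlgebra k F] (Ω : Type u)
    (ev : Ω → (F →ₗ⁅k⁆ A)), (∀ f, (∀ ω, ev ω f = 0) → f = 0) →
    ∀ M : F →ₗ[k] F →ₗ[k] Module.End k F, (∀ y y' g, M y y' g ∈ D1 k F) →
      (∀ y y', ∀ g ∈ D1 k F, ∀ ω, ev ω (M y y' g) = t (ev ω y) (ev ω y') • ev ω g) →
    ∀ (n : ℕ) (x : Fin n → F), LieSubalgebra.lieSpan k F (Set.range x) = ⊤ →
    ∀ U : Submodule k F, U ≤ (D1 k F).toSubmodule → (∀ i j, ∀ w ∈ U, M (x i) (x j) w ∈ U) →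
      ∃ S : Finset F, Two.gen (fun s : Fin n × Fin n => M (x s.1) (x s.2)) (S : Set F) = U

/-- (A6) Points of a moment curve in `span x` such that all the products are combinations of the squares. PROOF. `x' : Fin (3 ^ n) → F`,
`x' s = x i` if `s = 3 ^ i` for some `i : Fin n`, else `0`. Then `mom k x' μ = ∑ i, μ ^ 3 ^ i • x i` and
`M (mom k x' μ) (mom k x' μ) = ∑ i, ∑ j, μ ^ (3 ^ i + 3 ^ j) • M (x i) (x j) = ∑ l < 3 ^ n, μ ^ l • C l`, where `C l` is the sum of the
`M (x i) (x j)` with `3 ^ i + 3 ^ j = l`; note `3 ^ i + 3 ^ j ≤ 2 * 3 ^ (n-1) < 3 ^ n`. As the `3 ^ n` nodes are distinct, all the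
`C l` are in the span of the `M (mom k x' (ν s)) (mom k x' (ν s))` (Vandermonde, compare `MomSpanProp`, `Tor/Vand.lean`).
`3 ^ i + 3 ^ j = 3 ^ a + 3 ^ b` implies `{i, j} = {a, b}`, so for `l = 3 ^ i + 3 ^ j` the operator `C l` is `M (x i) (x i)` or
`2 • M (x i) (x j)`, `i ≠ j`. -/
def NodesProp : Prop :=
  ∀ (k : Type u) [Field k], (2 : k) ≠ 0 → ∀ (F : Type u) [AddCommGroup F] [Module k F]
    (M : F →ₗ[k] F →ₗ[k] Module.End k F), (∀ y y', M y y' = M y' y) → ∀ (n : ℕ) (x : Fin n → F),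
    ∃ x' : Fin (3 ^ n) → F, (∀ i, ∃ s, x' s = x i) ∧
      (∀ s, x' s = 0 ∨ ∃ i, x' s = x i) ∧
      (∀ μ : k, ∑ s : Fin (3 ^ n), μ ^ (s : ℕ) • x' s = ∑ i : Fin n, μ ^ 3 ^ (i : ℕ) • x i) ∧
      ∀ ν : Fin (3 ^ n) → k, Function.Injective ν → ∀ i j, M (x i) (x j) ∈
        Submodule.span k (Set.range fun s => M (∑ l : Fin (3 ^ n), ν s ^ (l : ℕ) • x' l)
          (∑ l : Fin (3 ^ n), ν s ^ (l : ℕ) • x' l))

/-- (A7) Proved in `Semi/VpGood.lean` from the lemmas above and `FinishProp`. -/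
def VpGoodProp : Prop :=
  ∀ (k : Type u) [Field k] [Infinite k], (2 : k) ≠ 0 → ∀ (A : Type u) [LieRing A] [LieAlgebra k A]
    (t : A →ₗ[k] A →ₗ[k] k), VP k A t → Good k (idOf k A)

/-! ## B. Identities and extension of scalars -/

/-- (B1) PROOF. Let `ρ : ℕ → B`. Each `ρ i` is a finite sum `∑ s < N i, e i s • j (a i s)`, `e i s : K`, `a i s : A`. For
`c : ℕ → ℕ → k` let `ρ_c i = ∑ s < N i, c i s • a i s : A`. For `q : ((ℕ × ℕ) →₀ ℕ) →₀ A` (a polynomial with coefficients in `A`) let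
`E c q = ∑ m ∈ supp q, c ^ m • q m : A` (`c ^ m = ∏ c i s ^ m (i, s)`) and `E' q = ∑ m ∈ supp q, e ^ m • j (q m) : B`. CLAIM: for every
`g : FreeLieAlgebra k ℕ` there is `q` with `lift ρ_c g = E c q` for all `c` and `lift ρ g = E' q`. The set of such `g` is a
Lie subalgebra (for the bracket take `∑_{m, m'} single (m + m') ⁅q m, q' m'⁆`) and contains the generators; `lift_mem` in
`Func.lean` (or an argument as in `Two/RelFree.lean`, `relFree_gen`). If `g ∈ idOf k A` then `E c q = 0` for all `c`; for every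
linear form `ℓ : A → k` the polynomial `∑ m, ℓ (q m) X^m` vanishes at all points, so it is zero
(`MvPolynomial.funext`, `k` is infinite); so `q = 0` and `lift ρ g = 0`. -/
def ExtProp : Prop :=
  ∀ (k : Type u) [Field k] [Infinite k] (K : Type u) [Field K] [Algebra k K] (A : Type u)
    [LieRing A] [LieAlgebra k A] (B : Type u) [LieRing B] [LieAlgebra k B] [LieAlgebra K B]
    [IsScalarTower k K B] (j : A →ₗ⁅k⁆ B), Submodule.span K (Set.range j) = ⊤ →
    idOf k A ⊆ idOf k B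

/-- (B2) The identity (I) as an element of the free Lie algebra. PROOF. `g = ∑ i, co i • ⁅pw k X₂ i X₀, pw k X₂ (m - i) X₁⁆` in the free
algebra, `X_i = of i`; homomorphisms commute with `pw` (`pw_map`). Given `a, b, y` choose `ρ 0 = a`, `ρ 1 = b`,
`ρ 2 = y`. -/
def IdentProp : Prop :=
  ∀ (k : Type u) [Field k] (m : ℕ) (co : ℕ → k), ∃ g : FreeLieAlgebra k ℕ,
    ∀ (L : Type u) [LieRing L] [LieAlgebra k L], g ∈ idOf k L ↔ IdI k L m co

/-- (B3) PROOF. `killingForm K (K ⊗[k] A) = (killingForm k A).baseChange K` (`LieModule.traceForm_baseChange`, or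
`LieAlgebra.killingForm_baseChange`), and `killingForm k A` is nondegenerate (`IsKilling k A` by Cartan's
criterion `LieAlgebra.HasTrivialRadical.instIsKilling`). The base change of a nondegenerate form on a finite dimensional space is
nondegenerate (the determinant of the matrix in a basis is mapped to the determinant, `LinearMap.BilinForm.baseChange`,
`Matrix.nondegenerate_iff_det_ne_zero`, `Module.Basis.baseChange`). -/
def BaseKillProp : Prop :=
  ∀ (k : Type u) [Field k] [CharZero k] (K : Type u) [Field K] [Algebra k K] (A : Type u) [LieRing A]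
    [LieAlgebra k A] [FiniteDimensional k A] [LieAlgebra.HasTrivialRadical k A],
    LieAlgebra.IsKilling K (K ⊗[k] A)

/-! ## C. Root systems -/

/-- (C1) PROOF. Let `α, β` be nonzero weights, `β ≠ α`, `β ≠ -α`, `x ∈ rootSpace H α`, `y ∈ rootSpace H β`. `α`, `β` are linearly independent
linear forms on `H`: otherwise `β = c • α` and `β = ± α` (`LieAlgebra.IsKilling.eq_neg_or_eq_of_eq_smul`). So for every
`τ : K` there is `h ∈ H` with `α h = 1`, `β h = τ`. `⁅x, h⁆ = - ⁅h, x⁆ = - x` (`LieAlgebra.IsKilling.lie_eq_smul_of_mem_rootSpace`),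
`⁅y, h⁆ = - τ • y`, so `pw K h i x = (-1)^i • x`, `pw K h i y = (-τ)^i • y` and the identity gives
`(-1)^m • (∑ i ≤ m, c i * τ ^ (m - i)) • ⁅x, y⁆ = 0` for all `τ : K`. If `⁅x, y⁆ ≠ 0` the polynomial `∑ c i T^(m-i)` vanishes on the
infinite field `K`, so all `c i`, `i ≤ m`, are zero, a contradiction. -/
def RootPairProp : Prop :=
  ∀ (K : Type u) [Field K] [CharZero K] [IsAlgClosed K] (B : Type u) [LieRing B] [LieAlgebra K B]
    [FiniteDimensional K B] [LieAlgebra.IsKilling K B] (H : LieSubalgebra K B) [H.IsCartanSubalgebra]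
    (m : ℕ) (c : ℕ → K), (∃ i ≤ m, c i ≠ 0) → IdI K B m c →
    ∀ (α β : LieModule.Weight K H B), α.IsNonZero → β.IsNonZero → β ≠ α → β ≠ -α →
      ∀ x ∈ LieAlgebra.rootSpace H α, ∀ y ∈ LieAlgebra.rootSpace H β, ⁅x, y⁆ = 0

/-- (C2) PROOF (uses `RootPairProp`). Choose a Cartan subalgebra `H` (exists over an infinite field) and a linear order on the finite set of
nonzero weights (`LieModule.Weight K H B`, e.g. by an equivalence with some `Fin N`). Let `R` be the set of the nonzero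
weights `α` with `α < -α` (`α ≠ -α` in characteristic zero, `α ≠ 0`); enumerate `R` by `Fin r`. For each `α ∈ R` choose a triple
`h, e, f` (`exists_isSl2Triple_of_weight_isNonZero`: `IsSl2Triple h e f`, `e ∈ rootSpace H α`, `f ∈ rootSpace H (-α)`),
`h = ⁅e, f⁆`. For `α ≠ β` in `R`: `β ≠ ±α`, so by `RootPairProp` `e_α, f_α` commute with `e_β, f_β`; then `h_β = ⁅e_β, f_β⁆` commutes with
`e_α, f_α` (Jacobi) and `h_α`. Spanning: `B` is the sum of `H` and the root spaces (`LieAlgebra`: `iSup` of the weight spaces of `H` is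
`⊤` since `H` is triangularizable; or `lieIdeal_eq_inf_cartan_sup_biSup_rootSpace` for `I = ⊤`), every
root space is one-dimensional (`finrank_rootSpace_eq_one`), spanned by some `e_α` or `f_α` (nonzero: `IsSl2Triple.e_ne_zero`,
`f_ne_zero`), and `H` is spanned by the coroots (`biSup_corootSpace_eq_top`, `coe_corootSpace_eq_span_singleton`; or
`span_weight_eq_top` and duality), which are the `± h_α` (`IsSl2Triple.h_eq_coroot`, `coroot_neg`). -/
def RootProp : Prop :=
  ∀ (K : Type u) [Field K] [CharZero K] [IsAlgClosed K] (B : Type u) [LieRing B] [LieAlgebra K B]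
    [FiniteDimensional K B] [LieAlgebra.IsKilling K B]
    (m : ℕ) (c : ℕ → K), (∃ i ≤ m, c i ≠ 0) → IdI K B m c →
    ∃ (r : ℕ) (h e f : Fin r → B), (∀ s, IsSl2Triple (h s) (e s) (f s)) ∧
      (∀ s s', s ≠ s' → ∀ a ∈ ({h s, e s, f s} : Set B), ∀ b ∈ ({h s', e s', f s'} : Set B),
        ⁅a, b⁆ = 0) ∧
      Submodule.span K (Set.range h ∪ Set.range e ∪ Set.range f) = ⊤

/-- (C3) PROOF. `j m = m 0 0 • h + m 0 1 • e + m 1 0 • f` (scalars in `k`). `IsSl2Triple`: `⁅h, e⁆ = 2 • e`, `⁅h, f⁆ = - 2 • f`, `⁅e, f⁆ = h`. The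
bracket of `sl₂(k)`: compute the entries of `m m' - m' m`. For the injectivity: `h, e, f` are linearly independent over `k` in
characteristic zero: apply `ad h` (eigenvalues `0, 2, -2`; `h, e, f ≠ 0`): if `a h + b e + c f = 0` then applying `ad h` twice:
`2 b e - 2 c f = 0`, `4 b e + 4 c f = 0`, so `b e = 0`, `c f = 0`, `a h = 0`. -/
def Sl2HomProp : Prop :=
  ∀ (k : Type u) [Field k] (B : Type u) [LieRing B] [LieAlgebra k B] (h e f : B),
    IsSl2Triple h e f → ∃ j : sl2 k →ₗ⁅k⁆ B, h ∈ Set.range j ∧ e ∈ Set.range j ∧ f ∈ Set.range j ∧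
      (∀ x, j x ∈ Submodule.span k ({h, e, f} : Set B)) ∧ (CharZero k → Function.Injective j)

/-- (C4) PROOF (uses `ExtProp`, `Sl2HomProp`). For each `s` let `S s = span K {h s, e s, f s}`, a Lie subalgebra over `K` (and over `k`; e.g.
`IsSl2Triple.toLieSubalgebra` or directly). `Sl2HomProp` over `k` gives `j s : sl2 k → B` with values in `S s` and with
`span K (range (j s)) = S s`. `ExtProp` for the Lie algebra `S s` gives: every `g ∈ idOf k (sl2 k)` vanishes on `S s`. Elements of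
`S s` and `S s'` commute for `s ≠ s'` and `B` is the sum of the `S s`. Let `ρ : ℕ → B`, `ρ i = ∑ s, ρ' s i`, `ρ' s i ∈ S s`.
CLAIM: `lift ρ g = ∑ s, lift (ρ' s) g` for all `g : FreeLieAlgebra k ℕ`: the set of such `g` is a Lie subalgebra, because
`lift (ρ' s) g ∈ S s` and `⁅lift (ρ' s) g, lift (ρ' s') g'⁆ = 0` for `s ≠ s'`; it contains the generators (`lift_mem`). -/
def Sl2IdProp : Prop :=
  ∀ (k : Type u) [Field k] [Infinite k] (K : Type u) [Field K] [Algebra k K] (B : Type u)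
    [LieRing B] [LieAlgebra k B] [LieAlgebra K B] [IsScalarTower k K B] (r : ℕ)
    (h e f : Fin r → B), (∀ s, IsSl2Triple (h s) (e s) (f s)) →
    (∀ s s', s ≠ s' → ∀ a ∈ ({h s, e s, f s} : Set B), ∀ b ∈ ({h s', e s', f s'} : Set B),
      ⁅a, b⁆ = 0) →
    Submodule.span K (Set.range h ∪ Set.range e ∪ Set.range f) = ⊤ → idOf k (sl2 k) ⊆ idOf k B

end Pool.Agent.Lib.MP_240c17_al.Semi
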