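import Pool.Agent.Lib.MP_240c17_al.Semi.Spec
import Pool.Agent.Lib.MP_240c17_al.Tor.Main
import Pool.Agent.Lib.MP_240c17_al.Tor.Final

/-!
Varieties generated by Lie algebras with the vector product identity.
-/

set_option autoImplicit false

namespace Pool.Agent.Lib.MP_240c17_al.Semi

universe u

open Pool.Agent.Lib.MP_240c17_al Pool.Agent.Lib.MP_240c17_al.Two Pool.Agent.Lib.MP_240c17_al.Tor

theorem vpGood (hEv : EvProp.{u}) (hMul : MulProp.{u}) (hRel : MulRelProp.{u})
    (hNoeth : NoethProp.{u}) (hNodes : NodesProp.{u}) (hFin : FinishProp.{u}) (hXfg : XfgProp.{u})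
    (hPw : PwPolyProp.{u}) (hSpan : MomSpanProp.{u}) (hIG : IdealGenProp.{u})
    (hDer : DerFcProp.{u}) : VpGoodProp.{u} := by
  classical
  intro k _ _ h2 A _ _ t ht L _ _ hL
  refine final_gen (idOf k A) ?_ L hL
  intro n K ζ hK hζ
  obtain ⟨ev, hev, hinj⟩ := hEv k A n
  obtain ⟨M, hsym, hD, hM⟩ := hMul k h2 A t ht _ (Fin n → A) ev hinj
  obtain ⟨hlin, hcomm, hpw⟩ := hRel k A t ht _ (Fin n → A) ev hinj M hD hM
  have hx := relFree_gen (idOf k A) n
  have hNo := hNoeth k A t ht _ (Fin n → A) ev hinj M hD hM n _ hx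
  have hFC := hDer k _ n _ hx
  obtain ⟨x', hx'1, hx'2, hx'3, hx'4⟩ := hNodes k h2 _ M hsym n
    (fun i => qMk (verbalIdeal (idOf k A) n) (FreeLieAlgebra.of k i))
  let ν : Fin (3 ^ n) → k := fun i => Infinite.natEmbedding k (i : ℕ)
  have hν : Function.Injective ν := fun i j h =>
    Fin.ext ((Infinite.natEmbedding k).injective h)
  have hMx := hx'4 ν hν
  -- the points generate
  have hy : LieSubalgebra.lieSpan k _ (Set.range fun s => mom k x' (ν s)) = ⊤ := by
    rw [eq_top_iff, ← hx, LieSubalgebra.lieSpan_le]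
    rintro _ ⟨i, rfl⟩
    obtain ⟨s, hs⟩ := hx'1 i
    have h1 : Submodule.span k (Set.range fun s => mom k x' (ν s)) ≤
        (LieSubalgebra.lieSpan k _ (Set.range fun s => mom k x' (ν s))).toSubmodule := by
      rw [Submodule.span_le]
      exact LieSubalgebra.subset_lieSpan
    have h3 := h1 (hSpan k _ (3 ^ n) x' ν hν s)
    rw [hs] at h3
    exact h3
  have hstab : ∀ U : Submodule k (FreeLieAlgebra k (Fin n) ⧸ verbalIdeal (idOf k A) n),
      (∀ s, ∀ w ∈ U, M (mom k x' (ν s)) (mom k x' (ν s)) w ∈ U) → ∀ i j, ∀ w ∈ U,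
      M (qMk (verbalIdeal (idOf k A) n) (FreeLieAlgebra.of k i))
        (qMk (verbalIdeal (idOf k A) n) (FreeLieAlgebra.of k j)) w ∈ U := by
    intro U hU i j w hw
    have h1 : ∀ φ ∈ Submodule.span k (Set.range fun s => M (∑ l : Fin (3 ^ n), ν s ^ (l : ℕ) • x' l)
        (∑ l : Fin (3 ^ n), ν s ^ (l : ℕ) • x' l)), φ w ∈ U := by
      intro φ hφ
      induction hφ using Submodule.span_induction with
      | mem φ hφ =>
        obtain ⟨s, rfl⟩ := hφ
        exact hU s w hw
      | zero => exact U.zero_mem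
      | add φ ψ _ _ h1 h2 => exact U.add_mem h1 h2
      | smul c φ _ h1 => exact U.smul_mem c h1
    exact h1 _ (hMx i j)
  have hK1 : ∃ S : Finset (FreeLieAlgebra k (Fin n) ⧸ verbalIdeal (idOf k A) n),
      Two.gen (fun j => pw k (mom k x' (ν j)) 1) (S : Set _) ⊔
        (⁅K, D1 k (FreeLieAlgebra k (Fin n) ⧸ verbalIdeal (idOf k A) n)⁆ : LieIdeal k _).toSubmodule
        = K.toSubmodule := by
    obtain ⟨S, hS⟩ := hK
    refine ⟨S, ?_⟩
    have h1 := hIG k _ (3 ^ n) (fun s => mom k x' (ν s)) hy (S : Set _)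
    rw [hS] at h1
    have h3 : (fun j => pw k (mom k x' (ν j)) 1) = fun s => adr k (mom k x' (ν s)) := by
      funext s
      exact pow_one _
    rw [h3, ← h1]
    exact sup_eq_left.mpr (LieSubmodule.lie_le_left _ _)
  refine hFin k _ (3 ^ n) x' (2 * 3 ^ n) 2 1 (D1 k _) K
    (fun μ => M (mom k x' μ) (mom k x' μ)) ν ζ hFC one_pos ?_ ?_ (hPw k _ (3 ^ n) x' 1) ?_
    (fun μ a _ => hD _ _ a) (fun μ a ha z => hlin _ _ a ha z)
    (fun μ μ' a ha => hcomm _ _ _ _ a ha) (fun μ a ha => hpw _ a ha) ?_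
    (hXfg k _ (3 ^ n) (fun s => mom k x' (ν s)) 1 (D1 k _) K ?_ ?_ hK1) hζ
  · intro y a b
    rw [pw_one, pw_one, pw_one, lie_lie, ← lie_skew b ⁅a, y⁆]
    abel
  · intro μ w
    rw [pw_one]
    exact LieSubmodule.lie_mem_lie (LieSubmodule.mem_top _) (LieSubmodule.mem_top _)
  · intro w
    refine ⟨fun l => ∑ p : Fin (3 ^ n) × Fin (3 ^ n), if (p.1 : ℕ) + p.2 = l then
      M (x' p.1) (x' p.2) w else 0, ?_⟩
    intro μ
    have h1 : M (mom k x' μ) (mom k x' μ) w = ∑ p : Fin (3 ^ n) × Fin (3 ^ n),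
        μ ^ ((p.1 : ℕ) + p.2) • M (x' p.1) (x' p.2) w := by
      unfold mom
      rw [Fintype.sum_prod_type]
      simp only [map_sum, LinearMap.sum_apply, map_smul, LinearMap.smul_apply, pow_add]
      rw [Finset.sum_comm]
      refine Finset.sum_congr rfl fun a _ => ?_
      rw [Finset.smul_sum]
      refine Finset.sum_congr rfl fun b _ => ?_
      rw [smul_smul, mul_comm]
    show M (mom k x' μ) (mom k x' μ) w = _
    rw [h1]
    simp only [Finset.smul_sum]
    rw [Finset.sum_comm]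
    refine Finset.sum_congr rfl fun p _ => ?_
    rw [Finset.sum_eq_single ((p.1 : ℕ) + p.2)]
    · rw [if_pos rfl]
    · intro l _ hl
      rw [if_neg (fun h => hl h.symm), smul_zero]
    · intro h
      exfalso
      apply h
      rw [Finset.mem_range]
      have := p.1.2
      have := p.2.2
      omega
  · intro U hU hUG
    obtain ⟨S, hS⟩ := hNo U hUG (hstab U (fun s w hw => hU s w hw))
    refine ⟨S, ?_⟩
    apply le_antisymm
    · refine gen_le hU ?_
      rw [← hS]
      exact subset_gen _ _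
    · rw [← hS]
      refine gen_le ?_ (subset_gen _ _)
      rintro ⟨i, j⟩ w hw
      exact hstab _ (fun s w hw => gen_stab _ _ s w hw) i j w hw
  · intro y a b
    rw [pw_one, pw_one, pw_one, lie_lie, ← lie_skew b ⁅a, y⁆]
    abel
  · intro s w
    rw [pw_one]
    exact LieSubmodule.lie_mem_lie (LieSubmodule.mem_top _) (LieSubmodule.mem_top _)

end Pool.Agent.Lib.MP_240c17_al.Semi
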